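import Pool.Agent.H79.B.Manifold

/-!
# The Iitaka fibration and the arithmetic data of hyperkaehler manifolds with `b_2 >= 4n + 3`
-/

namespace Pool.Agent.H79.B

open scoped BigOperators

/-- the restrictions of the functions in `V` to `W`. -/
abbrev resV {P : Type} (V : Spc P) (W : Set P) : Spc W :=
  V.map (LinearMap.funLeft ℂ ℂ (Subtype.val : W → P))

/-- their rank. -/
noncomputable abbrev rkV {P : Type} (V : Spc P) (W : Set P) : ℕ := dmV (resV V W)

/-- the set `R` contains a non empty open set. -/
abbrev DenseS {P : Type} [TopologicalSpace P] (R : Set P) : Prop :=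
  ∃ Z, IsClosed Z ∧ Z ≠ Set.univ ∧ ∀ y, y ∉ Z → y ∈ R

/-- the `bad i` are proper closed subsets. -/
abbrev BadS {P : Type} [TopologicalSpace P] (bad : ℕ → Set P) : Prop :=
  ∀ i, IsClosed (bad i) ∧ bad i ≠ Set.univ

/-- the orbit of `y` under the powers of `g`. -/
abbrev orbS {G P : Type} [Group G] [MulAction G P] (g : G) (y : P) : Set P :=
  Set.range fun m : ℤ => g ^ m • y

/-- the zeros of `Sig` in `W`. -/
abbrev LocusS {P : Type} (W : Set P) (Sig : Set (P → ℂ)) : Set P :=
  {y | y ∈ W ∧ ∀ v ∈ Sig, v y = 0}

/-- `u/t` is a quotient of elements of one of the spaces `V a`. -/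
abbrev QuoS {P : Type} (V : ℕ → Spc P) (u t : P → ℂ) : Prop :=
  ∃ a : ℕ, ∃ u', InV (V a) u' ∧ ∃ t', InV (V a) t' ∧ NzF t' ∧ ∀ y, u y * t' y = u' y * t y

namespace Manifold

variable {n : ℕ} {Lam : Type} [AddCommGroup Lam] {q : Lam → Lam → ℤ} (M : Manifold n Lam q)

/-- `u` is a section of the line bundle of class `x`. -/
abbrev In (x : Lam) (u : M.P → ℂ) : Prop := InV (M.Sec x) u

/-- all elements of `Sig` are sections of the line bundle of class `x`. -/
abbrev Ins (x : Lam) (Sig : Set (M.P → ℂ)) : Prop := ∀ ⦃u⦄, u ∈ Sig → InV (M.Sec x) u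

/-- `u` is not the zero section. -/
abbrev Nz (u : M.P → ℂ) : Prop := NzF u

/-- the point `y` is in the set `S`. -/
abbrev On (S : Set M.P) (y : M.P) : Prop := y ∈ S

/-- the action of the automorphism `g` on the points. -/
abbrev mv (g : M.Aut) (y : M.P) : M.P := mvS g y

/-- the orbit of `y` under the powers of `g`. -/
abbrev orb (g : M.Aut) (y : M.P) : Set M.P := orbS g y

/-- `u/t` is a quotient of sections of a multiple of `L`. -/
abbrev Quo (L : Lam) (u t : M.P → ℂ) : Prop := QuoS (fun a => M.Sec (a • L)) u t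

/-- the set `R` contains a non empty open set. -/
abbrev Dense (R : Set M.P) : Prop := DenseS R

/-- the `bad i` are proper closed subsets. -/
abbrev Bad (bad : ℕ → Set M.P) : Prop := BadS bad

/-- `x` is in no `bad i`. -/
abbrev Off (bad : ℕ → Set M.P) (x : M.P) : Prop := ∀ i, x ∉ bad i

/-- `g` fixes the transcendental lattice, so the class of the symplectic form. -/
abbrev Sympl (g : M.Aut) : Prop := ∀ v, (∀ x ∈ M.NS, q v x = 0) → M.pull g v = v

/-- all elements of `Sig` vanish at the point `y`. -/
abbrev Van (Sig : Set (M.P → ℂ)) (y : M.P) : Prop := ∀ v ∈ Sig, v y = 0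

/-- the zeros of `Sig` in `W`. -/
abbrev Locus (W : Set M.P) (Sig : Set (M.P → ℂ)) : Set M.P := LocusS W Sig

/-- the rank of the restriction of the sections of the line bundle of class `x` to `W`. -/
noncomputable abbrev rk (x : Lam) (W : Set M.P) : ℕ := rkV (M.Sec x) W

/-- spaces of functions on the points. -/
abbrev Sub : Type := Spc M.P

/-- the dimension of a space of functions. -/
noncomputable abbrev dm (V : M.Sub) : ℕ := dmV V

end Manifold

/-- the polarised form of `q(v)^n` (up to the factor `(2n)!`): the sum over all permutations of the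
products of the values of `q` on consecutive pairs. -/
def pairSum {V : Type*} {n : ℕ} (qC : V → V → ℂ) (v : Fin (2 * n) → V) : ℂ :=
  ∑ σ : Equiv.Perm (Fin (2 * n)), ∏ i : Fin n,
    qC (v (σ ⟨2 * i, by have := i.2; omega⟩)) (v (σ ⟨2 * i + 1, by have := i.2; omega⟩))

/-- the vector `l^k sg^(n-k+1) sgb^(n-k+1) a^(k-2)` -/
def mix {V : Type*} (n k : ℕ) (l a sg sgb : V) (i : Fin (2 * n)) : V :=
  if i.1 < k then l else if i.1 < n + 1 then sg else if i.1 < 2 * n + 2 - k then sgb else a

/-- formal power series in `k` variables over the complex numbers. -/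
abbrev Ser (k : ℕ) : Type := MvPowerSeries (Fin k) ℂ

/-- the coefficient of the monomial `tau`. -/
noncomputable abbrev cf {k : ℕ} (tau : Fin k →₀ ℕ) (f : Ser k) : ℂ := MvPowerSeries.coeff tau f

/-- the quotient of two power series. -/
noncomputable abbrev squo {k : ℕ} (f g : Ser k) : Ser k := f * g⁻¹

/-- `f` vanishes to order more than `t`. -/
abbrev VanLe {k : ℕ} (t : ℕ) (f : Ser k) : Prop :=
  ∀ tau : Fin k →₀ ℕ, tau.degree ≤ t → MvPowerSeries.coeff tau f = 0

/-- `f` vanishes to order at least `T`. -/
abbrev VanLt {k : ℕ} (T : ℕ) (f : Ser k) : Prop :=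
  ∀ tau : Fin k →₀ ℕ, tau.degree < T → MvPowerSeries.coeff tau f = 0

variable {n : ℕ} {Lam : Type} [AddCommGroup Lam] {q : Lam → Lam → ℤ}

/-- THE FIBRES ARE COISOTROPIC: `X_j phi_i = 0`, where `phi_i = s i / s 0` and `X_j phi_i` (the
Poisson bracket of `phi_j` and `phi_i`) is the coefficient of `t_j` in the jet of `phi_i`. -/
def CoisAt {P Lam : Type} {k : ℕ} (J : P → Lam → (P → ℂ) → MvPowerSeries (Fin k) ℂ) (G : Lam)
    (s : Fin (k + 1) → P → ℂ) : Prop :=
  ∀ y, s 0 y ≠ 0 → ∀ i j : Fin k, cf (Finsupp.single j 1) (squo (J y G (s i.succ)) (J y G (s 0))) = 0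

/-- THE JETS: `J G u` is the Taylor series of the section `u` of the line bundle of class `G` at a
point `y`; the series are added, multiplied by constants and multiplied, and the constant term is the
value at `y`. -/
structure Jets (M : Manifold n Lam q) {k : ℕ} (J : Lam → (M.P → ℂ) → Ser k) (y : M.P) : Prop where
  add : ∀ G, ∀ u, M.In G u → ∀ t, M.In G t → J G (u + t) = J G u + J G t
  smul : ∀ G, ∀ c : ℂ, ∀ u, M.In G u → J G (c • u) = MvPowerSeries.C c * J G u
  mul : ∀ G H, ∀ u, M.In G u → ∀ t, M.In H t → J (G + H) (u * t) = J G u * J H t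
  val : ∀ G, ∀ u, M.In G u → MvPowerSeries.constantCoeff (J G u) = u y

/-- the jets of the pull back of the sections by `g`; `v` is the factor of the pull back of the
trivialisations. -/
def JetsPull (M : Manifold n Lam q) {k : ℕ} (J : M.P → Lam → (M.P → ℂ) → Ser k) (g : M.Aut)
    (y : M.P) : Prop :=
  ∀ G, ∀ v : M.P → ℂ, (∀ y', v y' ≠ 0) →
    (∀ u, M.In (M.pull g G) u ↔ ∃ t, M.In G t ∧ ∀ y', u y' = v y' * t (M.mv g y')) →
    ∃ U : Ser k, MvPowerSeries.constantCoeff U ≠ 0 ∧
      ∀ t, M.In G t → J y (M.pull g G) (fun y' => v y' * t (M.mv g y')) = U * J (M.mv g y) G t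

/-- THE IITAKA FIBRATION `f : Y --> B` of `L`: `k = dim B` is the Iitaka dimension of `L` (`k = 0`
if there are no sections; then `b = 0`, `B` is a point and `Fib y` is the whole of `Y`). -/
structure Iitaka (M : Manifold n Lam q) (L : Lam) where
  k : ℕ
  /-- KAWAMATA: if the Iitaka dimension equals the numerical dimension, which is `n` (Fujiki's
  relation), then `L` is semiample. -/
  kawamata : n ≤ k → L ∈ M.Semiample
  /-- a multiple `b L` whose sections define `f` (`b` is divisible, the quotients of the sections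
  generate the function field of `B`, which is algebraically closed in the one of `Y`); sections
  `s 0, .., s k` such that the functions `phi_i = s i / s 0`, `i = 1, .., k`, are algebraically
  independent. -/
  b : ℕ
  s : Fin (k + 1) → M.P → ℂ
  s_mem : ∀ i, M.In (b • L) (s i)
  s_zero : M.Nz (s 0)
  /-- `Fib y` is the closure of the fibre of `f` through `y`, for `y` in the open set `Reg`, invariant
  under `triv` (`f` and the fields `X_i` below are regular at `y`, the differentials of `phi_1, ..,
  phi_k` are independent at `y`, and `f y` lies in an open subset of `B` over which the fibre is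
  general, so irreducible). -/
  Fib : M.P → Set M.P
  Reg : Set M.P
  reg_open : M.Dense Reg
  reg_good : ∀ y, M.On Reg y → s 0 y ≠ 0
  fib_irr : ∀ y, M.On Reg y → IsIrreducible (Fib y)
  fib_closed : ∀ y, M.On Reg y → IsClosed (Fib y)
  fib_mem : ∀ y, M.On Reg y → M.On (Fib y) y
  /-- RECURRENCE. `phi = u/t` is a quotient of sections of `b L`. If `phi(g y) = lam phi(y)`, then
  `|lam| = 1`: otherwise the sets `|lam|^j <= |phi| < |lam|^(j+1)` would have the same positive
  volume for the invariant finite measure defined by the symplectic form. The triples `(u, t, lam)`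
  are the points of a variety over the algebraic numbers, on which `lam` is therefore locally
  constant, so `lam` is algebraic and `u, t` can be taken over a number field; the same argument
  for the conjugates and, with the measures on `Y(k_v)`, for the finite places shows that all
  conjugates have absolute value `1` and that `lam` is a unit. If `phi(g y) = phi(y) + c`, then
  `c = 0`. -/
  recur_mul : ∀ g : M.Aut, ∀ u, M.In (b • L) u → ∀ t, M.In (b • L) t → M.Nz u → M.Nz t → ∀ lam : ℂ,
    (∀ y, u (M.mv g y) * t y = lam * (u y * t (M.mv g y))) →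
    IsIntegral ℤ lam ∧ ∀ z ∈ (minpoly ℚ lam).aroots ℂ, ‖z‖ = 1
  recur_add : ∀ g : M.Aut, ∀ u, M.In (b • L) u → ∀ t, M.In (b • L) t → M.Nz t → ∀ c : ℂ,
    (∀ y, u (M.mv g y) * t y - u y * t (M.mv g y) = c * (t y * t (M.mv g y))) → c = 0
  /-- AMERIK-CAMPANA: the very general orbit of `g` is dense in the fibre of the map defined by the
  field of invariant rational functions; this fibre contains the one of `f`, if the invariant
  functions are quotients of sections of multiples of `L`. -/
  amerik_campana : ∀ g : M.Aut,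
    (∀ D ∈ M.NS, ∀ u, M.In D u → ∀ t, M.In D t → M.Nz t →
      (∀ y, u (M.mv g y) * t y = t (M.mv g y) * u y) → M.Quo L u t) →
    ∃ bad, M.Bad bad ∧ ∀ x, M.Off bad x → Fib x ⊆ closure (M.orb g x)
  /-- The automorphisms which fix `L` and the symplectic form (the transcendental lattice), and
  which act trivially on `B`. -/
  triv : Set M.Aut
  triv_iff : ∀ g, g ∈ triv ↔ M.pull g L = L ∧ M.Sympl g ∧
    ∀ u, M.In (b • L) u → ∀ t, M.In (b • L) t → ∀ y, u (M.mv g y) * t y = u y * t (M.mv g y)
  triv_good : ∀ g ∈ triv, ∀ y, s 0 y ≠ 0 → s 0 (M.mv g y) ≠ 0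
  triv_reg : ∀ g ∈ triv, ∀ y, M.On Reg y →
    M.On Reg (M.mv g y) ∧ ∀ y', M.On (Fib y) y' → M.On (Fib y) (M.mv g y')
  /-- THE HAMILTONIAN FIELDS `X_i` of `phi_i`: rational vector fields, `s_0^2 X_i` is regular;
  they are invariant under `triv`.  JETS: `J y G u` is the Taylor series in `t_1, .., t_k` along the
  curves `exp(t_1 X_1 + .. + t_k X_k) y` of the section `u` of `G` at the point `y`, `s 0 y ≠ 0`;
  the line bundles are trivialised on this formal scheme compatibly with tensor products and with
  the vector chosen over `y`. -/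
  J : M.P → Lam → (M.P → ℂ) → Ser k
  jets : ∀ y, s 0 y ≠ 0 → Jets M (J y) y
  jets_pull : ∀ g ∈ triv, ∀ y, s 0 y ≠ 0 → JetsPull M J g y
  /-- the Poisson bracket is alternating. -/
  bracket : ∀ y, s 0 y ≠ 0 → ∀ i j : Fin k,
    cf (Finsupp.single j 1) (squo (J y (b • L) (s i.succ)) (J y (b • L) (s 0))) =
      - cf (Finsupp.single i 1) (squo (J y (b • L) (s j.succ)) (J y (b • L) (s 0)))
  /-- `H^2(Y, C)` with the Beauville-Bogomolov form, the classes of the line bundles, of the
  symplectic form and of its conjugate. -/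
  H2 : Type
  qC : H2 → H2 → ℂ
  cl : Lam → H2
  sg : H2
  sgb : H2
  qC_cl : ∀ x y, qC (cl x) (cl y) = (q x y : ℂ)
  qC_sg : ∀ x ∈ M.NS, qC (cl x) sg = 0 ∧ qC sg (cl x) = 0 ∧ qC (cl x) sgb = 0 ∧ qC sgb (cl x) = 0
  /-- the integral of the product of `2 n` classes, and FUJIKI's relation (polarised). -/
  int : (Fin (2 * n) → H2) → ℂ
  fujiki : ∃ c : ℂ, ∀ v, int v = c * pairSum qC v
  /-- COISOTROPIC FIBRES (VOISIN). On a resolution `b L = M + F`, `M = f^* O(1)` the moving part,
  `F` effective; so `M^k (sigma sigma-bar)^(n-k+1) a^(k-2) <= b^k L^k (sigma sigma-bar)^(n-k+1)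
  a^(k-2)` (the classes are nef, the powers of `sigma sigma-bar` are represented by weakly positive
  forms), and `M^k` is a multiple of the class of the general fibre `W`. If the number on the right
  is zero, then `sigma^(n-k+1)` vanishes on `W`, which is of codimension `k`; this means that `W`
  is coisotropic, so the fields `X_j` are tangent to `W`. -/
  voisin : 2 ≤ k → ∀ a ∈ M.Ample,
    int (mix n k (cl L) (cl a) sg sgb) = 0 → CoisAt J (b • L) s
  /-- DIFFERENTIAL OPERATORS. If the fibres are coisotropic, the fields `X_i` commute, are tangent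
  to the fibres and independent at the points of `Reg`. For `n_1` in `Sec N_1`, `N_1` very ample, the
  vector field `s_0^2 n_1 X_i` with values in `N_0 = 2 b L + N_1` is the symbol of a differential
  operator `G → G + N_0` of order one, for every line bundle `G` (the obstruction is in
  `H^1(N_0) = 0`).
  `Sig` consists of the results of at most `t` such operators, multiplied by sections
  `s_0^2 n_1`. -/
  N0 : Lam
  N0_mem : N0 ∈ M.Nef
  equations : CoisAt J (b • L) s → ∀ G, ∀ u, M.In G u → ∀ t : ℕ,
    ∃ Sig, M.Ins (G + t • N0) Sig ∧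
      (∀ y, s 0 y ≠ 0 → (M.Van Sig y ↔ VanLe t (J y G u))) ∧
      ∀ y, s 0 y ≠ 0 → ∀ T : ℕ, VanLe (t + T) (J y G u) →
        ∀ v ∈ Sig, VanLe T (J y (G + t • N0) v)
  /-- BEZOUT WITH MULTIPLICITIES (FULTON). `V` runs through components (of dimension `D`) of the
  locus in a fibre `W` where the sections `Sig` of the generated class `B` vanish; all of them
  vanish along `V` to order `T` at least in the directions of the fields `X_i`, of which
  `c >= k - D` are independent modulo the tangent space of `V`: the local ring of the locus at `V`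
  has length at least `T^c / c!`, so (general members of the linear system have an intersection
  multiplicity at least this length) `SUM_V (T^c / c!) B^D.V <= B^(2 n - k).W`. Here
  `B^D.V >= T^D`, since `B - T A` is nef, and
  `B^(2 n - k).W <= B^(2 n - k).(b L)^k = const q(B, B)^(n - k) q(B, L)^k` (FUJIKI). -/
  bezout : CoisAt J (b • L) s → ∀ A ∈ M.VeryAmple, ∃ C : ℝ, ∀ x, M.On Reg x → ∀ T : ℕ, 0 < T → ∀ B,
    B - (T + (2 * n + 1)) • A ∈ M.Nef → ∀ Sig, M.Ins B Sig → ∀ S : Finset (Set M.P),
    (∀ V ∈ S, IsComp (M.Locus (Fib x) Sig) V ∧ (V ∩ Reg).Nonempty ∧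
      ∀ y, M.On V y → s 0 y ≠ 0 → ∀ v ∈ Sig, VanLt T (J y B v)) →
    (S.card : ℝ) * (T : ℝ) ^ k ≤ C * (q B B : ℝ) ^ (n - k) * (q B L : ℝ) ^ k
  /-- ORDER OF VANISHING ALONG A VERY GENERAL FIBRE `W = Fib x`. `V j` is the space of the sections
  of `E = a A + b' L` which vanish to order `j` along `W`. The restrictions of the sections of `E`
  to the fibres are a subbundle of `f_* E` near the very general point `f(x)`, so the leading term
  of an element of `V j` is a homogeneous polynomial of degree `j` in `k` variables with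
  coefficients in the space of restrictions to `W`. If `u ≠ 0` vanishes to order `j`, let `S` be
  the inverse image of a general curve through `f(x)`: `j W <= div(u)` on `S`, and the intersection
  with `A^(2n-k)` shows `j <= C (a + b')`. -/
  order : ∀ A ∈ M.VeryAmple, ∃ (C : ℕ) (bad : ℕ → Set M.P), M.Bad bad ∧
    ∀ x, M.On Reg x → M.Off bad x → ∀ a b' : ℕ,
    ∃ V : ℕ → M.Sub, V 0 = M.Sec (a • A + b' • L) ∧ V (C * (a + b') + 1) = ⊥ ∧
      ∀ j, M.dm (V j) ≤ M.dm (V (j + 1)) + Nat.multichoose k j * M.rk (a • A + b' • L) (Fib x)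

variable {M : Manifold n Lam q} {L : Lam}

/-- the fibres are coisotropic -/
def Iitaka.Cois (I : Iitaka M L) : Prop := CoisAt I.J (I.b • L) I.s

/-- The jets at `y` of the normalised coordinates `a_j / a_0`; `JA y s` is the jet of the section
`s` of `A`. -/
noncomputable def nc {P : Type} {kap k : ℕ} (JA : P → (P → ℂ) → MvPowerSeries (Fin kap) ℂ)
    (a : Fin (k + 1) → P → ℂ) (y : P) (j : Fin (k + 1)) : MvPowerSeries (Fin kap) ℂ :=
  JA y (a j) * (JA y (a 0))⁻¹

/-- The series `p (n P1 + t P2)_b` in the variables `t`, for the linear map given by `P1, P2`. -/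
noncomputable def lin {p : ℕ} [Fact p.Prime] {r kap dl : ℕ} (P1 : Fin r → Fin dl → ℤ_[p])
    (P2 : Fin kap → Fin dl → ℤ_[p]) (n : Fin r → ℤ) (b : Fin dl) :
    MvPowerSeries (Fin kap) ℤ_[p] :=
  MvPowerSeries.C ((p : ℤ_[p]) * ∑ i, (n i : ℤ_[p]) * P1 i b) +
    ∑ i, MvPowerSeries.C ((p : ℤ_[p]) * P2 i b) * MvPowerSeries.X i

/-- the span of the functions `a j` is `V`. -/
abbrev Spans {P : Type} {k : ℕ} (a : Fin (k + 1) → P → ℂ) (V : Submodule ℂ (P → ℂ)) : Prop :=
  Submodule.span ℂ (Set.range a) = V

/-- `w` is a normalised finite place of the number field `K`. -/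
abbrev FinPl {K : Type} [Field K] [NumberField K] (w : AbsoluteValue K ℝ) : Prop :=
  w ∈ Height.AdmissibleAbsValues.nonarchAbsVal (K := K)

/-- `w` is a normalised infinite place of the number field `K`. -/
abbrev InfPl {K : Type} [Field K] [NumberField K] (w : AbsoluteValue K ℝ) : Prop :=
  w ∈ Height.AdmissibleAbsValues.archAbsVal (K := K)

/-- the logarithmic height of the vector `e`, relative to `K`. -/
noncomputable abbrev ht {K : Type} [Field K] [NumberField K] {k : ℕ} (e : Fin (k + 1) → K) : ℝ :=
  Height.logHeight e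

/-- the height of the vector of the constant terms. -/
noncomputable abbrev ht0 {K : Type} [Field K] [NumberField K] {kap k : ℕ}
    (f : Fin (k + 1) → MvPowerSeries (Fin kap) K) : ℝ :=
  Height.logHeight (fun j => MvPowerSeries.constantCoeff (f j))

/-- the Taylor coefficients of `g` in `Z_p` are those of `f`, multiplied by `p^(M |tau|)`. -/
def Integral {p : ℕ} [Fact p.Prime] {K : Type} [Field K] {kap : ℕ} (iota : K →+* ℚ_[p]) (M : ℕ)
    (f : MvPowerSeries (Fin kap) K) (g : MvPowerSeries (Fin kap) ℤ_[p]) : Prop :=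
  ∀ tau, ((MvPowerSeries.coeff tau g : ℤ_[p]) : ℚ_[p]) =
    (p : ℚ_[p]) ^ (M * tau.degree) * iota (MvPowerSeries.coeff tau f)

/-- `Q_p^(2 n)` and its bilinear and linear forms. -/
abbrev Vc (p : ℕ) [Fact p.Prime] (n : ℕ) : Type := Fin (2 * n) → ℚ_[p]
abbrev Bil (p : ℕ) [Fact p.Prime] (n : ℕ) : Type :=
  LinearMap.BilinForm ℚ_[p] (Fin (2 * n) → ℚ_[p])
abbrev Cov (p : ℕ) [Fact p.Prime] (n : ℕ) : Type := (Fin (2 * n) → ℚ_[p]) →ₗ[ℚ_[p]] ℚ_[p]

/-- the values of a bilinear and of a linear form. -/
noncomputable abbrev bf {p : ℕ} [Fact p.Prime] {n : ℕ} (form : Bil p n) (v w : Vc p n) : ℚ_[p] :=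
  form v w

noncomputable abbrev cv {p : ℕ} [Fact p.Prime] {n : ℕ} (c : Cov p n) (v : Vc p n) : ℚ_[p] := c v

/-- The symplectic form `form`, the vector fields `vec i = d/dm_i` of the interpolated action of
`Z_p^r` on `U` and the fields `ham i = X_i`, at a point of `U`. -/
structure Symp {p : ℕ} [Fact p.Prime] {n r kap : ℕ} (form : Bil p n) (vec : Fin r → Vc p n)
    (ham : Fin kap → Vc p n) (dphi : Fin kap → Cov p n) : Prop where
  alt : form.IsAlt
  nondeg : form.Nondegenerate
  /-- the fields `d/dm_i` commute and preserve the form, so its values on them are constant on `U`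
  (Cartan's formula); the interpolated action preserves the closed subset `F` of `U`, so at `z` these
  fields are tangent to `F`, on which the form vanishes. -/
  form_vec : ∀ i j, bf form (vec i) (vec j) = 0
  /-- `X_i` is the Hamiltonian field of the function `phi_i`, which is invariant under the group,
  hence under the fields `d/dm_j`, and also under the `X_j` (the fibres of the Iitaka fibration are
  coisotropic). -/
  form_ham : ∀ i v, bf form (ham i) v = cv (dphi i) v
  dphi_vec : ∀ i j, cv (dphi i) (vec j) = 0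
  dphi_ham : ∀ i j, cv (dphi i) (ham j) = 0

/-- the dimension of the span of the fields. -/
noncomputable def rkSp {p : ℕ} [Fact p.Prime] {n r kap : ℕ} (vec : Fin r → Vc p n)
    (ham : Fin kap → Vc p n) : ℕ :=
  Module.finrank ℚ_[p] (Submodule.span ℚ_[p] (Set.range vec ∪ Set.range ham))

/-- the series `fn m` are, modulo `p^N`, the values of a polynomial at `p (m P1 + t P2)`. -/
def Analytic {p : ℕ} [Fact p.Prime] {r kap dl : ℕ} (P1 : Fin r → Fin dl → ℤ_[p])
    (P2 : Fin kap → Fin dl → ℤ_[p]) (fn : (Fin r → ℤ) → MvPowerSeries (Fin kap) ℤ_[p]) : Prop :=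
  ∀ N : ℕ, ∃ Q : MvPolynomial (Fin dl) ℤ_[p], ∀ m tau,
    (p : ℤ_[p]) ^ N ∣ MvPowerSeries.coeff tau (fn m) -
      MvPowerSeries.coeff tau (MvPolynomial.aeval (lin P1 P2 m) Q)

/-- the determinant of the Taylor coefficients of order `tau i` at `y` of the products over `s` of
the translates by `nu i s` of the normalised coordinates `J j s`. -/
noncomputable def jdet {P : Type} {r kap k : ℕ} (act : (Fin r → ℤ) → P → P)
    (JA : P → (P → ℂ) → MvPowerSeries (Fin kap) ℂ) (a : Fin (k + 1) → P → ℂ) {N l : ℕ}
    (nu : Fin N → Fin l → (Fin r → ℤ)) (tau : Fin N → (Fin kap →₀ ℕ))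
    (J : Fin N → Fin l → Fin (k + 1)) (y : P) : ℂ :=
  Matrix.det (Matrix.of fun i j =>
    MvPowerSeries.coeff (tau i) (∏ s, nc JA a (act (nu i s) y) (J j s)))

/-- the value of the polynomial `G` at the integral point `y`. -/
noncomputable abbrev evz {d : ℕ} (G : MvPolynomial (Fin d) ℂ) (y : Fin d → ℤ) : ℂ :=
  MvPolynomial.eval (fun i => (y i : ℂ)) G

/-- THE SIZE OF THE TAYLOR COEFFICIENTS of `f`, in terms of the vector `e`. -/
structure Size {K : Type} [Field K] [NumberField K] {kap k' : ℕ} (f : MvPowerSeries (Fin kap) K)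
    (e : Fin (k' + 1) → K) : Prop where
  fin : ∀ tau, ∀ v, FinPl v → v ((∏ i, (tau i).factorial : ℕ) * MvPowerSeries.coeff tau f) ≤
    (⨆ i, v (e i)) ^ (tau.degree + 1)
  arch : ∀ tau, ∀ v, InfPl v → v (MvPowerSeries.coeff tau f) ≤ (⨆ i, v (e i)) ^ (tau.degree + 1)

/-- ARITHMETIC OF A RESIDUE DISC. `A` is a very ample class on `Y`, `act m` (`m` in `Z^r`) are
commuting automorphisms acting on the classes by `pull m`; everything (also the fields `X_i`) is
defined over a number field `k`, also a smooth point `z` of an irreducible component `F` of the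
fixed point set of an automorphism which commutes with the `act m`; `F` is preserved by the `act m`,
and the symplectic form vanishes on `F`.  `p >= 3` is a prime and `v | p` a place of `k` with
`k_v = Q_p` at which `Y`, `A`, `F`, the automorphisms and a finite map `f : Y → P^(2 n)` (given by
sections of `A`, unramified at `z`) have good reduction; `U` is the residue disc of `z` in `Y(Q_p)`,
`U'` a smaller disc in `U` on which the fields `X_i` are regular; the group (a subgroup of finite
index of the given one) maps `U` and `U'` to themselves and is the identity modulo `p^2` on them. The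
fields `X_i` commute (the fibres of the Iitaka fibration are coisotropic). -/
structure Disc {Lam : Type} [AddCommGroup Lam] (q : Lam → Lam → ℤ) (NS Ample : Set Lam)
    {P : Type} (SecA : Submodule ℂ (P → ℂ)) (n : ℕ) {r kap : ℕ} (act : (Fin r → ℤ) → P → P)
    (pull : (Fin r → ℤ) → Lam → Lam) (A : Lam) (Good : Set P)
    (JA : P → (P → ℂ) → MvPowerSeries (Fin kap) ℂ) (p : ℕ) [Fact p.Prime] where
  /-- the coordinates of the projective embedding given by `A`, a basis of sections over `k`. -/
  k : ℕ
  a : Fin (k + 1) → P → ℂ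
  span_a : Spans a SecA
  /-- the algebraic points `x` of `U'` in `Good` which lie over rational integral points of an
  affine space `A^(2 n)` in `P^(2 n)` under `f`; `K x = k(x)`, of degree at most `d`. -/
  D : Type
  K : D → Type
  [fld : ∀ x, Field (K x)]
  [nf : ∀ x, NumberField (K x)]
  d : ℕ
  deg : ∀ x, Module.finrank ℚ (K x) ≤ d
  /-- the complex point, the embeddings of `K x` into `C` and (from `x` in `Y(Q_p)`) into `Q_p`. -/
  pt : D → P
  pt_good : ∀ x, pt x ∈ Good
  emb : ∀ x, K x →+* ℂ
  iota : ∀ x, K x →+* ℚ_[p]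
  /-- the jets of the normalised coordinates at the point `m.x`; the first coordinate is a unit on
  `U`. -/
  co : ∀ x, (Fin r → ℤ) → Fin (k + 1) → MvPowerSeries (Fin kap) (K x)
  co_zero : ∀ x m, co x m 0 = 1
  a_ne : ∀ x m, a 0 (act m (pt x)) ≠ 0
  co_val : ∀ x m j, MvPowerSeries.map (emb x) (co x m j) = nc JA a (act m (pt x)) j
  /-- the place of `K x` defined by `iota` has completion `Q_p`, so that its normalised absolute
  value is the pull back of the one of `Q_p`. -/
  place : ∀ x, ∃ w, FinPl w ∧ ∀ t, w t = ‖iota x t‖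
  /-- `U` has coordinates in which `U'` is a disc of radius `p^(-M)` at most; so the fields
  `p^M X_i` have flows on `U'` defined for `t` in `Z_p`: the Taylor coefficients of order `tau`,
  multiplied by `p^(M |tau|)`, are integral. -/
  M : ℕ
  fn : D → (Fin r → ℤ) → Fin (k + 1) → MvPowerSeries (Fin kap) ℤ_[p]
  fn_val' : ∀ x m j, Integral (iota x) M (co x m j) (fn x m j)
  /-- the symplectic form at `x`, the vector fields `d/dm_i` of the interpolated action of `Z_p^r` on
  `U` and the fields `X_i`, at the point `x`, the differentials of the functions `phi_i`. -/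
  form : D → Bil p n
  vec : D → Fin r → Vc p n
  ham : D → Fin kap → Vc p n
  dphi : D → Fin kap → Cov p n
  symp : ∀ x, Symp (form x) (vec x) (ham x) (dphi x)
  /-- the dimension of the span of all these fields at `x`. -/
  dl : D → ℕ
  dl_eq' : ∀ x, dl x = rkSp (vec x) (ham x)
  /-- POONEN (p-adic interpolation of iterates): `exp(p^M t X) m.x` is an analytic function of
  `(m, t)` in `Z_p^(r + kap)`, a power series in `p m, p t` with coefficients in `Z_p`.  The fields
  commute; if a combination of them vanishes at `x`, its flow fixes `x` (uniqueness of integral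
  curves), so the function factors through the quotient of `Z_p^(r + kap)` by these combinations, a
  free module of rank `dl x`; it is the analytic function, modulo `p^N` the polynomial `Q`, of
  `p (m P1 + t P2)`. -/
  P1 : ∀ x, Fin r → Fin (dl x) → ℤ_[p]
  P2 : ∀ x, Fin kap → Fin (dl x) → ℤ_[p]
  fn_an' : ∀ x j, Analytic (P1 x) (P2 x) fun m => fn x m j
  /-- the finite map `f` and HENSEL: every integral point of `A^(2 n)` congruent to `y0` modulo `p0`
  (a power of `p`) lifts to a point of `U'`, which is in `Good` if the image of the complement of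
  `Good`, a hypersurface `G0 = 0`, is avoided; the height of the point is comparable with that of
  its image. -/
  p0 : ℕ
  p0_pos : 0 < p0
  y0 : Fin (2 * n) → ℤ
  f : D → (Fin (2 * n) → ℤ)
  G0 : MvPolynomial (Fin (2 * n)) ℂ
  G0_ne : G0 ≠ 0
  hensel : ∃ C : ℝ, ∀ y : Fin (2 * n) → ℤ, (∀ i, (p0 : ℤ) ∣ y i - y0 i) →
    evz G0 y ≠ 0 → ∃ x : D, f x = y ∧ ht0 (co x 0) ≤ C * (1 + Real.log (1 + ∑ i, |(y i : ℝ)|))
  /-- a determinant of Taylor coefficients, of order at most `T`, of products of `l` translates of
  normalised coordinates is a rational function over `k`, with poles of order at most `T + 1` along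
  the translates of `a_0 = 0` and (if `l >= 1`; `q(pull m A, A) >= 1`) `O(T)` for every row along the
  complement of `Good`; the zeros are
  mapped by `f` to a hypersurface, whose degree is bounded by the projection formula and Fujiki's
  relation `G.A^(2 n - 1) = const q(G, A)`. -/
  push' : ∃ C : ℝ, 0 < C ∧ ∀ (N l T : ℕ) (nu : Fin N → Fin l → (Fin r → ℤ))
    (tau : Fin N → (Fin kap →₀ ℕ)) (J : Fin N → Fin l → Fin (k + 1)),
    (∀ i, (tau i).degree ≤ T) →
    (∃ y ∈ Good, (∀ i s, a 0 (act (nu i s) y) ≠ 0) ∧ jdet act JA a nu tau J y ≠ 0) →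
    ∃ G : MvPolynomial (Fin (2 * n)) ℂ, G ≠ 0 ∧
      (G.totalDegree : ℝ) ≤ C * (1 + T) * ∑ i, ∑ s, (q (pull (nu i s) A) A : ℝ) ∧
      ∀ x : D, evz G (f x) ≠ 0 → jdet act JA a nu tau J (pt x) ≠ 0
  /-- THE SIZE OF THE TAYLOR COEFFICIENTS. On the affine open set where `a_0` is not zero, in
  `Good`, the `X_i` are derivations of the coordinate ring, which is generated by finitely many
  functions; a derivative of order `t` of a generator is a polynomial in them of degree at most
  `1 + C t`, with integral coefficients at almost all places and of size at most `C^t t!` (Cauchy).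
  `e x m` is the vector of the values at `m.x` of the monomials of degree at most `C` of the
  generators and of some rational constants, so its height is bounded by the one of `m.x`. -/
  k' : ℕ
  e : ∀ x, (Fin r → ℤ) → Fin (k' + 1) → K x
  e_zero : ∀ x m, e x m 0 = 1
  cost : ∀ x m j, Size (co x m j) (e x m)
  cost_height : ∃ C : ℝ, ∀ x m, ht (e x m) ≤ C * (1 + ht0 (co x m))
  /-- WEIL'S HEIGHT MACHINE for the points `m.x`: `H x m G` = height of `m.x` for the class `G`,
  relative to `K x` (that is `[K x : Q]` times the absolute one). -/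
  H : D → (Fin r → ℤ) → Lam → ℝ
  H_add : ∀ x m, ∀ G ∈ NS, ∀ G' ∈ NS, H x m (G + G') = H x m G + H x m G'
  H_A : ∃ C : ℝ, ∀ x m, |H x m A - ht0 (co x m)| ≤ C
  H_pull : ∀ G ∈ NS, ∀ g : Fin r → ℤ, ∃ C : ℝ, ∀ x m, |H x (m + g) G - H x m (pull g G)| ≤ C
  H_pos : ∀ G ∈ Ample, ∃ C : ℝ, ∀ x m, - C ≤ H x m G

attribute [instance] Disc.fld Disc.nf

/-- THE PERIOD of `Y` is rational: the transcendental lattice has rank two and is positive definite.
Then `Y` has maximal Picard number, so it is rigid with its line bundles and defined over a number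
field with all of them and all its automorphisms. -/
def ModClass.RatPeriod (C : ModClass n Lam) (Y : C.Mem) : Prop :=
  ∃ p1 p2, 0 < C.q p1 p1 ∧ 0 < C.q p2 p2 ∧ C.q p1 p2 = 0 ∧
    ∀ x, x ∈ (C.M Y).NS ↔ C.q x p1 = 0 ∧ C.q x p2 = 0

/-- DEFORMATION CLASS of hyperkaehler manifolds of dimension `2n`, with the Iitaka fibrations, fixed
points and arithmetic data of its members. -/
structure DefClass (n : ℕ) (Lam : Type) [AddCommGroup Lam] extends ModClass n Lam where
  /-- the Iitaka fibrations of the isotropic nef classes on the members with rational period. -/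
  iit : ∀ Y, toModClass.RatPeriod Y → ∀ L, L ∈ (M Y).Nef → q L L = 0 → L ≠ 0 → Iitaka (M Y) L
  /-- HOLOMORPHIC LEFSCHETZ FORMULA: an automorphism which fixes the transcendental lattice fixes
  the class of the symplectic form, so its Lefschetz number on `H^*(Y, O)` is `n + 1` and it has a
  fixed point; `fix Y g` is a component `F` of the fixed point set. -/
  fix : ∀ Y, ∀ g : (M Y).Aut, (∀ v, (∀ x ∈ (M Y).NS, q v x = 0) → (M Y).pull g v = v) →
    FixComp (M Y) g
  /-- ARITHMETIC DATA. Let `rho` be a commutative group of automorphisms of a member `Y` with rational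
  period which act trivially on the base of the Iitaka fibration of `L`, and `F` the component `fix`
  of the fixed point set of `rho g0`; `S A` is the integral over `F` of `sigma sigma-bar A^(a-2)`
  (`a = dim F`), so if it is zero, `sigma` vanishes on `F`. Then the data of `Disc` exist, after
  replacing the group by a subgroup of finite index: `U` is the residue disc of a smooth point `z` of
  `F`, defined over a number field; the group preserves `F` and `U`, so the vector fields of its
  interpolated action on `U` are tangent to `F` at `z`, and the values of `sigma` on them, which are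
  constant on `U`, are zero. The fibres of the Iitaka fibration are assumed to be coisotropic, so the
  Hamiltonian fields commute and are tangent to them. -/
  disc : ∀ Y (hY : toModClass.RatPeriod Y) L (hL : L ∈ (M Y).Nef) (hLL : q L L = 0) (hL0 : L ≠ 0),
    ∀ {r : ℕ} (rho : (Fin r → ℤ) → (M Y).Aut), rho 0 = 1 →
    (∀ m m', rho (m + m') = rho m * rho m') →
    (∀ m, rho m ∈ (iit Y hY L hL hLL hL0).triv) →
    (iit Y hY L hL hLL hL0).Cois → ∀ A ∈ (M Y).VeryAmple, ∀ g0 h, (fix Y (rho g0) h).S A = 0 →
    ∃ m : ℕ, 0 < m ∧ ∃ (p : ℕ) (_ : Fact p.Prime), Nonempty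
      (Disc q ((M Y).NS : Set Lam) (M Y).Ample ((M Y).Sec A) n
        (fun k (y : (M Y).P) => rho (m • k) • y) (fun k x => (M Y).pull (rho (m • k)) x) A
        {y | (iit Y hY L hL hLL hL0).s 0 y ≠ 0}
        (fun y u => (iit Y hY L hL hLL hL0).J y A u) p)

end Pool.Agent.H79.B
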