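import Pool.Agent.H79.B.Multi
import Pool.Agent.H79.B.Arith
import Pool.Agent.H46.S.Main
import Pool.Agent.H20.HN.Main

/-!
# From the structures of `H79/B` to those of the proofs

The structures of `H79/B` have the same fields as the ones used in the proofs (`H83/HN`, `H83/HP`,
`H36/HP`, `H46/P`, `H46/S`, `H13/HN`), written with abbreviations; here every field is carried over.
-/

namespace Pool.Agent.H79.B

variable {n : ℕ} {Lam : Type} [AddCommGroup Lam] {q : Lam → Lam → ℤ}

@[reducible] noncomputable def Manifold.old (M : Manifold n Lam q) : Pool.Agent.H83.HN.Manifold n Lam q where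
  NS := M.NS
  Ample := M.Ample
  Nef := M.Nef
  Semiample := M.Semiample
  ample_nef := M.ample_nef
  nef_NS := M.nef_NS
  nef_zero := M.nef_zero
  nef_add := M.nef_add
  ample_add := M.ample_add
  exists_ample := M.exists_ample
  ample_dom := M.ample_dom
  nef_limit := M.nef_limit
  nef_q := M.nef_q
  ample_q := M.ample_q
  ample_nef_q := M.ample_nef_q
  semiample_zero := M.semiample_zero
  bpf := M.bpf
  P := M.P
  top := M.top
  irr := M.irr
  t1 := M.t1
  Sec := M.Sec
  zero_closed := M.zero_closed
  sec_mul := M.sec_mul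
  sec_fin := M.sec_fin
  sec_zero := M.sec_zero
  rr := M.rr
  rr_deg := M.rr_deg
  rr_pos := M.rr_pos
  rr_eq := M.rr_eq
  dim := M.dim
  dim_mono := M.dim_mono
  dim_univ := M.dim_univ
  Aut := M.Aut
  grp := M.grp
  mul := M.mul
  aut_cont := M.aut_cont
  pull := M.pull
  pull_one := M.pull_one
  pull_mul := M.pull_mul
  pull_q := M.pull_q
  pull_NS := M.pull_NS
  pull_ample := M.pull_ample
  pull_nef := M.pull_nef
  pull_sec := M.pull_sec
  ker_fin := M.ker_fin
  VeryAmple := M.VeryAmple
  va_ample := M.va_ample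
  va_pull := M.va_pull
  exists_va := M.exists_va
  regular := M.regular
  generated := M.generated
  normal := M.normal
  Prime := M.Prime
  prime_NS := M.prime_NS
  prime_nef := M.prime_nef
  prime_ample := M.prime_ample
  effective := M.effective
  inv_poles := M.inv_poles
  baire := M.baire

@[reducible] noncomputable def FixComp.old {M : Manifold n Lam q} {g : M.Aut} (F : FixComp M g) : Pool.Agent.H83.HN.FixComp (M).old g where
  curves := F.curves
  curve_fix := F.curve_fix
  S := F.S
  V := F.V
  S_nonneg := F.S_nonneg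
  S_num := F.S_num
  V_num := F.V_num
  c := F.c
  c_pos := F.c_pos
  C := F.C
  yau := F.yau

@[reducible] noncomputable def ModClass.old (C : ModClass n Lam) : Pool.Agent.H83.HN.ModClass n Lam where
  q := C.q
  q_symm := C.q_symm
  q_add := C.q_add
  three := C.three
  rest := C.rest
  free := C.free
  finite := C.finite
  rank := C.rank
  Mem := C.Mem
  M := fun Y => (C.M Y).old
  MBM := C.MBM
  mbm_neg := C.mbm_neg
  mbm_bdd := C.mbm_bdd
  prime_mbm := C.prime_mbm
  period := C.period
  chamber := C.chamber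
  torelli := C.torelli
  matsushita := C.matsushita

@[reducible] noncomputable def FormsData.old {M : Manifold n Lam q} (F : FormsData M) : Pool.Agent.H83.HP.FormsData (M).old where
  fn := F.fn
  fn_add := F.fn_add
  fn_smul := F.fn_smul
  fn_one := F.fn_one
  fn_bdd := F.fn_bdd
  fn_comp := F.fn_comp
  Om := F.Om
  grp := F.grp
  mod := F.mod
  Pos := F.Pos
  Kah := F.Kah
  pos_add := F.pos_add
  pos_smul := F.pos_smul
  kah_pos := F.kah_pos
  kah_dom := F.kah_dom
  dd := F.dd
  dd_add := F.dd_add
  dd_smul := F.dd_smul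
  dd_ker := F.dd_ker
  star := F.star
  star_one := F.star_one
  star_mul := F.star_mul
  star_pos := F.star_pos
  star_dd := F.star_dd
  frm := F.frm
  frm_add := F.frm_add
  frm_star := F.frm_star
  frm_kah := F.frm_kah

@[reducible] noncomputable def Forms.old {M : Manifold n Lam q} (F : Forms M) : Pool.Agent.H83.HP.Forms (M).old where
  toFormsData := (F.toFormsData).old
  av := F.av
  av_add := F.av_add
  av_smul := F.av_smul
  av_one := F.av_one
  av_comp := F.av_comp
  sup_av := F.sup_av
  lel := F.lel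
  lel_nonneg := F.lel_nonneg
  lel_inv := F.lel_inv
  compact := F.compact

@[reducible] noncomputable def Twisted.old {M : Manifold n Lam q} {L : Lam} (F : Twisted M L) : Pool.Agent.H36.HP.Twisted (M).old L where
  K := F.K
  fld := F.fld
  sec := F.sec
  det := F.det
  det_NS := F.det_NS
  slope := F.slope
  wedge := F.wedge

@[reducible] noncomputable def Coh.old {M : Manifold n Lam q} {F : Forms M} {L : Lam} (D : Coh M F L) : Pool.Agent.H36.HP.Coh (M).old (F).old L where
  toTwisted := (D.toTwisted).old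
  h := D.h
  rr := D.rr
  dps := D.dps

@[reducible] noncomputable def Per.old {Lam : Type} {q : Lam → Lam → ℤ} (π : Per q) : Pool.Agent.H46.P.Per q where
  k := π.k
  e := π.e
  c := π.c
  d := π.d
  c_pos := π.c_pos
  d_pos := π.d_pos
  orth := π.orth

@[reducible] noncomputable def MV.old {K : Type} [Field K] [Algebra ℂ K] {N : ℕ} {Lam : Type} [AddCommGroup Lam]
    {q : Lam → Lam → ℤ} {NS : AddSubgroup Lam} {Ample : Set Lam} {L : Lam} {d : Lam → ℕ}
    {h : ℕ → Lam → ℕ} {z : Prop} (V : MV K N Lam q NS Ample L d h z) :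
    Pool.Agent.H46.S.MV K N Lam q NS Ample L d h z where
  mv := V.mv
  mv_fin := V.mv_fin
  cl := V.cl
  cl_NS := V.cl_NS
  line := V.line
  polystable := V.polystable
  stable := V.stable
  bochner := V.bochner
  quotient := V.quotient
  cross := V.cross
  par := V.par
  wu := V.wu
  KT := V.KT
  KT_ne := V.KT_ne
  par_iff := V.par_iff

@[reducible] noncomputable def Multi.old {M : Manifold n Lam q} {F : Forms M} {L : Lam} (D : Multi M F L) : Pool.Agent.H46.S.Multi (M).old (F).old L where
  toCoh := (D.toCoh).old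
  alg := D.alg
  h_z := D.h_z
  kv := D.kv
  V := (D.V).old

@[reducible] noncomputable def Fib.old (f : Fib) : Pool.Agent.H46.S.Fib where
  N := f.N
  grp := f.grp
  mod := f.mod
  b := f.b
  b_symm := f.b_symm
  H := f.H
  hodge := f.hodge
  Nef := f.Nef
  Eff := f.Eff
  nef_nef := f.nef_nef
  nef_eff := f.nef_eff
  H_nef := f.H_nef
  l := f.l
  l_nef := f.l_nef
  l_ne := f.l_ne
  l_sq := f.l_sq
  c := f.c
  c_pos := f.c_pos
  E := f.E
  C := f.C
  C_pos := f.C_pos
  C_eff := f.C_eff
  E_eff := f.E_eff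
  P := f.P
  P_nef := f.P_nef
  G := f.G
  G_eff := f.G_eff
  eq := f.eq
  neg := f.neg
  h0 := f.h0
  iitaka := f.iitaka
  gm := f.gm

@[reducible] noncomputable def SClassA.old (C : SClassA n Lam) : Pool.Agent.H46.S.SClassA n Lam where
  toModClass := (C.toModClass).old
  wall := C.wall
  per := fun Y => (C.per Y).old
  NS_per := C.NS_per
  near := C.near

@[reducible] noncomputable def SClass.old (C : SClass n Lam) : Pool.Agent.H46.S.SClass n Lam where
  toSClassA := (C.toSClassA).old
  forms := fun Y => (C.forms Y).old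
  coh := fun Y x h1 h2 h3 => (C.coh Y x h1 h2 h3).old
  prime_div := C.prime_div
  gongyo_matsumura := C.gongyo_matsumura
  six := fun hn Y x h1 h2 h3 h4 => (C.six hn Y x h1 h2 h3 h4).imp id fun ⟨f⟩ => ⟨(f).old⟩

theorem Jets.old {M : Manifold n Lam q} {k : ℕ} {J : Lam → (M.P → ℂ) → MvPowerSeries (Fin k) ℂ} {y : M.P}
    (h : Jets M J y) : Pool.Agent.H13.HN.Jets (M).old J y where
  add := h.add
  smul := h.smul
  mul := h.mul
  val := h.val

@[reducible] noncomputable def Iitaka.old {M : Manifold n Lam q} {L : Lam} (I : Iitaka M L) : Pool.Agent.H13.HN.Iitaka (M).old L where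
  k := I.k
  kawamata := I.kawamata
  b := I.b
  s := I.s
  s_mem := I.s_mem
  s_zero := I.s_zero
  Fib := I.Fib
  Reg := I.Reg
  reg_open := I.reg_open
  reg_good := I.reg_good
  fib_irr := I.fib_irr
  fib_closed := I.fib_closed
  fib_mem := I.fib_mem
  recur_mul := I.recur_mul
  recur_add := I.recur_add
  amerik_campana := I.amerik_campana
  triv := I.triv
  triv_iff := I.triv_iff
  triv_good := I.triv_good
  triv_reg := I.triv_reg
  J := I.J
  jets := fun y hy => (I.jets y hy).old
  jets_pull := I.jets_pull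
  bracket := I.bracket
  H2 := I.H2
  qC := I.qC
  cl := I.cl
  sg := I.sg
  sgb := I.sgb
  qC_cl := I.qC_cl
  qC_sg := I.qC_sg
  int := I.int
  fujiki := I.fujiki
  voisin := I.voisin
  N0 := I.N0
  N0_mem := I.N0_mem
  equations := I.equations
  bezout := I.bezout
  order := I.order

theorem Symp.old {p : ℕ} [Fact p.Prime] {n r kap : ℕ} {form : Pool.Agent.H13.HN.Bil p n}
    {vec : Fin r → Pool.Agent.H13.HN.Vc p n} {ham : Fin kap → Pool.Agent.H13.HN.Vc p n}
    {dphi : Fin kap → Pool.Agent.H13.HN.Cov p n} (h : Symp form vec ham dphi) :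
    Pool.Agent.H13.HN.Symp form vec ham dphi where
  alt := h.alt
  nondeg := h.nondeg
  form_vec := h.form_vec
  form_ham := h.form_ham
  dphi_vec := h.dphi_vec
  dphi_ham := h.dphi_ham

theorem Size.old {K : Type} [Field K] [NumberField K] {kap k' : ℕ} {f : MvPowerSeries (Fin kap) K}
    {e : Fin (k' + 1) → K} (h : Size f e) : Pool.Agent.H13.HN.Size f e where
  fin := h.fin
  arch := h.arch

@[reducible] noncomputable def Disc.old {Lam : Type} [AddCommGroup Lam] {q : Lam → Lam → ℤ} {NS Ample : Set Lam}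
    {P : Type} {SecA : Submodule ℂ (P → ℂ)} {n : ℕ} {r kap : ℕ} {act : (Fin r → ℤ) → P → P}
    {pull : (Fin r → ℤ) → Lam → Lam} {A : Lam} {Good : Set P}
    {JA : P → (P → ℂ) → MvPowerSeries (Fin kap) ℂ} {p : ℕ} [Fact p.Prime]
    (D : Disc q NS Ample SecA n act pull A Good JA p) :
    Pool.Agent.H13.HN.Disc q NS Ample SecA n act pull A Good JA p where
  k := D.k
  a := D.a
  span_a := D.span_a
  D := D.D
  K := D.K
  fld := D.fld
  nf := D.nf
  d := D.d
  deg := D.deg
  pt := D.pt
  pt_good := D.pt_good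
  emb := D.emb
  iota := D.iota
  co := D.co
  co_zero := D.co_zero
  a_ne := D.a_ne
  co_val := D.co_val
  place := D.place
  M := D.M
  fn := D.fn
  fn_val' := D.fn_val'
  form := D.form
  vec := D.vec
  ham := D.ham
  dphi := D.dphi
  symp := fun x => (D.symp x).old
  dl := D.dl
  dl_eq' := D.dl_eq'
  P1 := D.P1
  P2 := D.P2
  fn_an' := D.fn_an'
  p0 := D.p0
  p0_pos := D.p0_pos
  y0 := D.y0
  f := D.f
  G0 := D.G0
  G0_ne := D.G0_ne
  hensel := D.hensel
  push' := D.push'
  k' := D.k'
  e := D.e
  e_zero := D.e_zero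
  cost := fun x m j => (D.cost x m j).old
  cost_height := D.cost_height
  H := D.H
  H_add := D.H_add
  H_A := D.H_A
  H_pull := D.H_pull
  H_pos := D.H_pos

@[reducible] noncomputable def DefClass.old (C : DefClass n Lam) : Pool.Agent.H83.HN.DefClass n Lam where
  toModClass := (C.toModClass).old
  iit := fun Y h1 L h2 h3 h4 => (C.iit Y h1 L h2 h3 h4).old
  fix := fun Y g h => (C.fix Y g h).old
  disc := fun Y hY L hL hLL hL0 _ rho h1 h2 h3 h4 A hA g0 h hS => by
    obtain ⟨m, hm, p, hp, ⟨D⟩⟩ := C.disc Y hY L hL hLL hL0 rho h1 h2 h3 h4 A hA g0 h hS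
    exact ⟨m, hm, p, hp, ⟨(D).old⟩⟩

end Pool.Agent.H79.B
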