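import Pool.Agent.H79.B.Manifold

/-!
# Forms and cohomology on a projective hyperkaehler manifold

`P` is the set of points of the manifold `Y`; smooth functions are real functions on `P`.
-/

namespace Pool.Agent.H79.B

open Filter Topology

variable {n : ℕ} {Lam : Type} [AddCommGroup Lam] {q : Lam → Lam → ℤ}

/-! Abbreviations for statements about functions and about vector spaces. -/

/-- real functions on the points. -/
abbrev Manifold.Fun (M : Manifold n Lam q) : Type := M.P → ℝ

/-- the function `f` is in the set `S`. -/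
abbrev Manifold.InF (M : Manifold n Lam q) (S : Set M.Fun) (f : M.Fun) :
    Prop := f ∈ S

/-- the inverse image of the function `f` under the automorphism `g`. -/
abbrev Manifold.comp (M : Manifold n Lam q) (g : M.Aut) (f : M.Fun) :
    M.Fun := fun y => f (g • y)

/-- the vector `x` is in the set `S`. -/
abbrev InO {V : Type} (S : Set V) (x : V) : Prop := x ∈ S

/-- the sum of two vectors. -/
abbrev addO {V : Type} [AddCommGroup V] (x y : V) : V := x + y

/-- the difference of two vectors. -/
abbrev subO {V : Type} [AddCommGroup V] (x y : V) : V := x - y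

/-- a real multiple of a vector. -/
abbrev smulO {V : Type} [AddCommGroup V] [Module ℝ V] (t : ℝ) (x : V) : V := t • x

/-- the value of a linear map. -/
abbrev apO {V : Type} [AddCommGroup V] [Module ℝ V] (f : V →ₗ[ℝ] V) (x : V) : V := f x

/-- SMOOTH FUNCTIONS AND CLOSED `(1,1)`-FORMS on `Y`. -/
structure FormsData (M : Manifold n Lam q) where
  /-- the smooth real functions (`Y` is compact). -/
  fn : Set M.Fun
  fn_add : ∀ f, M.InF fn f → ∀ f', M.InF fn f' → M.InF fn fun y => f y + f' y
  fn_smul : ∀ t : ℝ, ∀ f, M.InF fn f → M.InF fn fun y => t * f y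
  fn_one : M.InF fn fun _ => 1
  fn_bdd : ∀ f, M.InF fn f → ∃ C : ℝ, ∀ y, |f y| ≤ C
  fn_comp : ∀ g f, M.InF fn f → M.InF fn (M.comp g f)
  /-- the smooth closed real forms of type `(1,1)`, the semipositive and the Kaehler forms. -/
  Om : Type
  [grp : AddCommGroup Om]
  [mod : Module ℝ Om]
  Pos : Set Om
  Kah : Set Om
  pos_add : ∀ w ∈ Pos, ∀ w' ∈ Pos, addO w w' ∈ Pos
  pos_smul : ∀ t : ℝ, 0 ≤ t → ∀ w ∈ Pos, smulO t w ∈ Pos
  kah_pos : Kah ⊆ Pos
  kah_dom : ∀ w ∈ Kah, ∀ w' : Om, ∃ C : ℝ, subO (smulO C w) w' ∈ Pos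
  /-- the operator `i d dbar` on smooth functions; its kernel consists of the constants. -/
  dd : M.Fun → Om
  dd_add : ∀ f, M.InF fn f → ∀ f', M.InF fn f' → dd (fun y => f y + f' y) = addO (dd f) (dd f')
  dd_smul : ∀ t : ℝ, ∀ f, M.InF fn f → dd (fun y => t * f y) = smulO t (dd f)
  dd_ker : ∀ f, M.InF fn f → (dd f = 0 ↔ ∃ c : ℝ, ∀ y, f y = c)
  /-- inverse image of forms under automorphisms. -/
  star : M.Aut → Om →ₗ[ℝ] Om
  star_one : ∀ w, apO (star 1) w = w
  star_mul : ∀ g h, ∀ w, apO (star (g * h)) w = apO (star h) (apO (star g) w)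
  star_pos : ∀ g, ∀ w ∈ Pos, apO (star g) w ∈ Pos
  star_dd : ∀ g f, M.InF fn f → apO (star g) (dd f) = dd (M.comp g f)
  /-- `frm x`: a form in the class `x` (chosen for a basis of `NS`, extended additively);
  forms in the same class differ by some `dd f`. -/
  frm : Lam → Om
  frm_add : ∀ x ∈ M.NS, ∀ y ∈ M.NS, frm (x + y) = addO (frm x) (frm y)
  frm_star : ∀ g, ∀ x ∈ M.NS, ∃ f, M.InF fn f ∧
    apO (star g) (frm x) = addO (frm (M.pull g x)) (dd f)
  frm_kah : ∀ x ∈ M.Ample, ∃ f, M.InF fn f ∧ addO (frm x) (dd f) ∈ Kah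

attribute [instance] FormsData.grp FormsData.mod

/-- MEAN VALUES, LELONG NUMBERS and two compactness theorems. -/
structure Forms (M : Manifold n Lam q) extends FormsData M where
  /-- the mean value for the volume form defined by the symplectic form `σ`, which is invariant
  under all automorphisms. -/
  av : M.Fun → ℝ
  av_add : ∀ f, M.InF fn f → ∀ f', M.InF fn f' → av (fun y => f y + f' y) = av f + av f'
  av_smul : ∀ t : ℝ, ∀ f, M.InF fn f → av (fun y => t * f y) = t * av f
  av_one : av (fun _ => 1) = 1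
  av_comp : ∀ g f, M.InF fn f → av (M.comp g f) = av f
  /-- the supremum of a function `f` with `w + dd f ≥ 0` exceeds its mean value by a bounded
  amount (compactness of the set of the quasi-plurisubharmonic functions with supremum `0`). -/
  sup_av : ∀ w, InO Kah w → ∃ C : ℝ, ∀ f, M.InF fn f → InO Pos (addO w (dd f)) →
    ∀ y, f y ≤ av f + C
  /-- `lel x y`: the LELONG NUMBER at the point `y` of the closed positive current with minimal
  singularities in the nef class `x`. -/
  lel : Lam → M.P → ℝ
  lel_nonneg : ∀ x y, 0 ≤ lel x y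
  lel_inv : ∀ g, ∀ x ∈ M.Nef, M.pull g x = x → ∀ y, lel x (mvS g y) = lel x y
  /-- COMPACTNESS AND HARTOGS' LEMMA. If `frm x + eps_k w + dd f_k ≥ 0`, `eps_k → 0`, the functions
  `f_k` are bounded above and have mean values bounded below, then a subsequence converges to the
  potential of a closed positive current in the class `x`, which is at most the potential with
  minimal singularities plus a constant, so it is `-∞` on the compact set `lel x ≥ c`; so the
  suprema of the `f_k` of the subsequence on this set tend to `-∞`. -/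
  compact : ∀ x ∈ M.Nef, ∀ w, InO Kah w → ∀ (f : ℕ → M.Fun) (eps : ℕ → ℝ),
    (∀ k, M.InF fn (f k)) → Tendsto eps atTop (𝓝 0) →
    (∀ k, InO Pos (addO (addO (frm x) (smulO (eps k) w)) (dd (f k)))) →
    (∃ C : ℝ, ∀ k y, f k y ≤ C) → (∃ C : ℝ, ∀ k, C ≤ av (f k)) →
    ∀ c : ℝ, 0 < c → ∀ B : ℝ, ∃ k, ∀ y, c ≤ lel x y → f k y ≤ B

/-- the bound: `C(2n,n) ((2n+1) C(2n,n) + 1)` -/
def bnd (n : ℕ) : ℕ := (2 * n).choose n * ((2 * n + 1) * (2 * n).choose n + 1)

/-- the vector space `K^N`, `N = C(2n, p)`. -/
abbrev Vec (n : ℕ) (K : Type) (p : ℕ) : Type := Fin ((2 * n).choose p) → K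

/-- its subspaces. -/
abbrev Sps (n : ℕ) (K : Type) [Field K] (p : ℕ) : Type :=
  Submodule K (Fin ((2 * n).choose p) → K)

/-- the vectors `w i` of `K^N` are linearly independent over `K`. -/
abbrev Ind {K : Type} [Field K] {N r : ℕ} (w : Fin r → Fin N → K) : Prop :=
  LinearIndependent K w

/-- the space spanned by the vectors `v i`. -/
abbrev Spn {n : ℕ} {K : Type} [Field K] {p k : ℕ} (v : Fin k → Vec n K p) : Sps n K p :=
  Submodule.span K (Set.range v)

/-- the vector `v` is not zero. -/
abbrev NzVec {n : ℕ} {K : Type} [Field K] {p : ℕ} (v : Vec n K p) : Prop := v ≠ 0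

/-- HOLOMORPHIC FORMS with values in the multiples of the class `L`. `K` is the function field of `Y`;
after the choice of a rational section of the line bundle of class `L` the sections of `Ω^p ⊗ L^m` are
vectors of `Ω^p ⊗ K = K^N`, `N = C(2n, p)`. -/
structure Twisted (M : Manifold n Lam q) (L : Lam) where
  K : Type
  [fld : Field K]
  /-- the sections of `Ω^p ⊗ L^m` -/
  sec : (p m : ℕ) → Vec n K p → Prop
  /-- the first Chern class of the saturated subsheaf of `Ω^p` with generic fibre `V` -/
  det : (p : ℕ) → Sps n K p → Lam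
  det_NS : ∀ p V, det p V ∈ M.NS
  /-- YAU: `Ω^p` is polystable of slope zero with respect to every ample class `a`; by FUJIKI the degree
  `c_1 a^(2n-1)` is a positive multiple of `q(c_1, a)`. -/
  slope : ∀ p V, ∀ a ∈ M.Ample, q (det p V) a ≤ 0
  /-- the exterior product of linearly independent maps `L^(-m_i) -> F` is a non zero map to the
  determinant of `F` -/
  wedge : ∀ p (k : ℕ) (v : Fin k → Vec n K p) (m : Fin k → ℕ),
    Ind v → (∀ i, sec p (m i) (v i)) → M.Eff ((∑ i, m i) • L + det p (Spn v))

attribute [instance] Twisted.fld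

/-- COHOMOLOGY of the multiples of the class `L`, and holomorphic forms with values in them. -/
structure Coh (M : Manifold n Lam q) (F : Forms M) (L : Lam) extends Twisted M L where
  /-- the dimension of `H^i(Y, x)` -/
  h : ℕ → Lam → ℕ
  /-- RIEMANN-ROCH (Hirzebruch; Fujiki, Huybrechts): the Euler characteristic of `x` is a polynomial
  in `q(x)`, with constant term `n + 1` -/
  rr : ∀ x ∈ M.NS, q x x = 0 → ∑ i ∈ Finset.range (2 * n + 1), (-1 : ℤ) ^ i * h i x = n + 1
  /-- SKODA: if all Lelong numbers of the current with minimal singularities are zero, then the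
  multiplier ideals of all multiples of the metric are trivial; DEMAILLY, PETERNELL and SCHNEIDER:
  hard Lefschetz theorem -/
  dps : (∀ y, F.lel L y = 0) → ∀ i m : ℕ, i ≤ 2 * n → 0 < m → h i (m • L) ≠ 0 →
    ∃ v, NzVec v ∧ sec (2 * n - i) m v

end Pool.Agent.H79.B
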