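import Pool.Agent.H79.B.Conv

/-!
# Nef classes on hyperkaehler manifolds with second Betti number at least five
-/

namespace Pool.Agent.H79.B

/-- dimension four and six -/
theorem semiample {n : ℕ} (hn : n = 2 ∨ n = 3) {Lam : Type} [AddCommGroup Lam] (C : SClass n Lam)
    (X : C.Mem) : (C.M X).Nef ⊆ (C.M X).Semiample :=
  Pool.Agent.H46.S.main.1 n hn Lam C.old X

/-- nonvanishing, every dimension -/
theorem effective {n : ℕ} (hn : 2 ≤ n) {Lam : Type} [AddCommGroup Lam] (C : SClass n Lam)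
    (X : C.Mem) {L : Lam} (hL : L ∈ (C.M X).Nef) (hLL : C.q L L = 0) :
    ∃ m : ℕ, 0 < m ∧ m ≤ bnd n ∧ (C.M X).Eff (m • L) :=
  Pool.Agent.H46.S.main.2.1 n hn Lam C.old X L hL hLL

/-- primitive classes, dimension four and six -/
theorem le_h0 {n : ℕ} (hn : n = 2 ∨ n = 3) {Lam : Type} [AddCommGroup Lam] (C : SClass n Lam)
    (X : C.Mem) {L : Lam} (hL : L ∈ (C.M X).Nef) (hLL : C.q L L = 0) (hL0 : L ≠ 0)
    (hp : ∀ (m : ℕ) (x : Lam), L = m • x → m = 1) : n ≤ dmV ((C.M X).Sec L) :=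
  Pool.Agent.H46.S.main.2.2 n hn Lam C.old X L hL hLL hL0 hp

/-- every dimension, large second Betti number -/
theorem semiample_of_rank {n : ℕ} (hn : 2 ≤ n) {Lam : Type} [AddCommGroup Lam]
    (C : DefClass n Lam) (hr : 4 * n + 3 ≤ Module.finrank ℤ Lam) (X : C.Mem) :
    (C.M X).Nef ⊆ (C.M X).Semiample :=
  Pool.Agent.H20.HN.main n hn Lam C.old hr X

end Pool.Agent.H79.B
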