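import Mathlib

/-!
# Hyperkaehler manifolds of dimension `2n`: the published facts about one projective manifold

All manifolds are marked: `Lam` is the lattice `H^2(Y, Z)`, `q` the Beauville-Bogomolov form. `P` is
the set `Y(C)` of complex points with the Zariski topology, and a section of a line bundle is written
as a function on `P`: in the fibre of every line bundle (of a basis of the free group
`Pic Y = NS Y`, the others by tensor products) over every point a non zero vector is chosen, with no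
condition.  Classes outside `NS Y` have no sections (`Sec x = 0`).
-/

namespace Pool.Agent.H79.B

open scoped BigOperators

/-! Abbreviations for statements about functions on the points. -/

/-- spaces of complex functions on the points. -/
abbrev Spc (P : Type) : Type := Submodule ℂ (P → ℂ)

/-- `u` is an element of the space `V` of functions. -/
abbrev InV {P : Type} (V : Submodule ℂ (P → ℂ)) (u : P → ℂ) : Prop := u ∈ V

/-- `u` is not the zero function. -/
abbrev NzF {P : Type} (u : P → ℂ) : Prop := u ≠ 0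

/-- the space `V` is not zero. -/
abbrev NzV {P : Type} (V : Spc P) : Prop := V ≠ ⊥

/-- the dimension of the space `V` of functions. -/
noncomputable abbrev dmV {P : Type} (V : Submodule ℂ (P → ℂ)) : ℕ := Module.finrank ℂ V

/-- the dimension of the space `V` of functions is finite. -/
abbrev FinV {P : Type} (V : Spc P) : Prop := Module.Finite ℂ V

/-- the products of elements of `V` and of `W`. -/
abbrev Prods {P : Type} (V W : Spc P) : Set (P → ℂ) := {u | ∃ s ∈ V, ∃ t ∈ W, u = s * t}

/-- the products of `m` elements of `V`. -/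
abbrev Pows {P : Type} (m : ℕ) (V : Spc P) : Set (P → ℂ) :=
  {u | ∃ t : Fin m → P → ℂ, (∀ i, t i ∈ V) ∧ u = ∏ i, t i}

/-- the image of the point `y` under `g`. -/
abbrev mvS {G P : Type} [Group G] [MulAction G P] (g : G) (y : P) : P := g • y

/-- `W` is an irreducible component of the (closed) set `Z`. -/
def IsComp {P : Type} [TopologicalSpace P] (Z W : Set P) : Prop :=
  IsIrreducible W ∧ W ⊆ Z ∧ ∀ W', IsIrreducible W' → W' ⊆ Z → W ⊆ W' → W' = W

/-- GEOMETRY OF ONE projective hyperkaehler manifold `Y` of dimension `2n`, marked by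
`Lam = H^2(Y, Z)`. -/
structure Manifold (n : ℕ) (Lam : Type) [AddCommGroup Lam] (q : Lam → Lam → ℤ) where
  /-- the Neron-Severi group, the ample, the nef, the semiample classes. -/
  NS : AddSubgroup Lam
  Ample : Set Lam
  Nef : Set Lam
  Semiample : Set Lam
  ample_nef : Ample ⊆ Nef
  nef_NS : Nef ⊆ NS
  nef_zero : (0 : Lam) ∈ Nef
  nef_add : ∀ x ∈ Nef, ∀ y ∈ Nef, x + y ∈ Nef
  ample_add : ∀ x ∈ Ample, ∀ y ∈ Nef, x + y ∈ Ample
  exists_ample : ∃ a, a ∈ Ample
  ample_dom : ∀ a ∈ Ample, ∀ x ∈ NS, ∃ m : ℕ, 0 < m ∧ m • a + x ∈ Ample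
  nef_limit : ∀ a ∈ Ample, ∀ x ∈ NS, (∀ m : ℕ, a + m • x ∈ Ample) → x ∈ Nef
  nef_q : ∀ x ∈ Nef, 0 ≤ q x x
  ample_q : ∀ a ∈ Ample, 0 < q a a
  ample_nef_q : ∀ a ∈ Ample, ∀ x ∈ Nef, x ≠ 0 → 0 < q a x
  semiample_zero : (0 : Lam) ∈ Semiample
  /-- base point free theorem (`x` nef, `q(x) > 0`, i.e. `x^(2n) > 0`, by Fujiki's relation). -/
  bpf : ∀ x ∈ Nef, 0 < q x x → x ∈ Semiample
  /-- the points, the sections of the line bundle of class `x`. -/
  P : Type
  [top : TopologicalSpace P]
  [irr : IrreducibleSpace P]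
  [t1 : T1Space P]
  Sec : Lam → Spc P
  zero_closed : ∀ x s, InV (Sec x) s → IsClosed {y | s y = 0}
  sec_mul : ∀ x y s, InV (Sec x) s → ∀ t, InV (Sec y) t → InV (Sec (x + y)) (s * t)
  sec_fin : ∀ x, FinV (Sec x)
  sec_zero : dmV (Sec 0) = 1
  /-- RIEMANN-ROCH (Fujiki, Huybrechts) and Kodaira vanishing: `h^0(x)` is a polynomial of degree
  `n` in `q(x)`, with leading coefficient `c_X / (2n)!`. -/
  rr : Polynomial ℚ
  rr_deg : rr.natDegree = n
  rr_pos : 0 < rr.leadingCoeff
  rr_eq : ∀ x ∈ Ample, (dmV (Sec x) : ℚ) = rr.eval (q x x : ℚ)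
  /-- dimension of irreducible closed subsets. -/
  dim : Set P → ℕ
  dim_mono : ∀ Z W : Set P, IsClosed Z → IsIrreducible Z → IsClosed W → IsIrreducible W → Z ⊆ W →
    Z ≠ W → dim Z < dim W
  dim_univ : dim Set.univ = 2 * n
  /-- automorphisms: action on points and (by pull back) on classes. -/
  Aut : Type
  [grp : Group Aut]
  [mul : MulAction Aut P]
  aut_cont : ∀ g : Aut, Continuous fun y : P => mvS g y
  pull : Aut → Lam →+ Lam
  pull_one : pull 1 = AddMonoidHom.id Lam
  pull_mul : ∀ g h, pull (g * h) = (pull h).comp (pull g)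
  pull_q : ∀ g x y, q (pull g x) (pull g y) = q x y
  pull_NS : ∀ g, ∀ x ∈ NS, pull g x ∈ NS
  pull_ample : ∀ g, ∀ x ∈ Ample, pull g x ∈ Ample
  pull_nef : ∀ g, ∀ x ∈ Nef, pull g x ∈ Nef
  pull_sec : ∀ g x, ∃ u : P → ℂ, (∀ y, u y ≠ 0) ∧
    ∀ s, InV (Sec (pull g x)) s ↔ ∃ t, InV (Sec x) t ∧ ∀ y, s y = u y * t (mvS g y)
  /-- only finitely many automorphisms act trivially on `H^2` (Huybrechts). -/
  ker_fin : {g : Aut | pull g = AddMonoidHom.id Lam}.Finite
  /-- very ample, projectively normal classes; KODAIRA and MUMFORD (Castelnuovo-Mumford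
  regularity): if `G - (2n+1)F` is nef, `F` very ample, then `G` is 0-regular for `F`. -/
  VeryAmple : Set Lam
  va_ample : VeryAmple ⊆ Ample
  va_pull : ∀ g, ∀ x ∈ VeryAmple, pull g x ∈ VeryAmple
  exists_va : ∀ x ∈ Ample, ∃ m : ℕ, 0 < m ∧ m • x ∈ VeryAmple
  regular : ∀ F ∈ VeryAmple, ∀ G, G - (2 * n + 1) • F ∈ Nef →
    Sec (G + F) = Submodule.span ℂ (Prods (Sec G) (Sec F))
  generated : ∀ F ∈ VeryAmple, ∀ G, G - (2 * n + 1) • F ∈ Nef →
    ∀ y, ∃ s, InV (Sec G) s ∧ s y ≠ 0
  normal : ∀ F ∈ VeryAmple, ∀ m : ℕ, Sec (m • F) = Submodule.span ℂ (Pows m (Sec F))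
  /-- classes of prime divisors. -/
  Prime : Set Lam
  prime_NS : Prime ⊆ NS
  prime_nef : ∀ D ∈ Prime, ∀ x ∈ Nef, 0 ≤ q D x
  prime_ample : ∀ D ∈ Prime, ∀ x ∈ Ample, 0 < q D x
  effective : ∀ x ∈ NS, NzV (Sec x) → x ∈ AddSubmonoid.closure Prime
  /-- the divisor of poles `D'` of a rational function `s/t` which is invariant under `g`: `t'` its
  section, `s' = (s/t) t'`. -/
  inv_poles : ∀ g : Aut, ∀ D ∈ NS, ∀ s, InV (Sec D) s → ∀ t, InV (Sec D) t → NzF t →
    (∀ y, s (mvS g y) * t y = t (mvS g y) * s y) →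
    ∃ D' ∈ NS, pull g D' = D' ∧ ∃ s', InV (Sec D') s' ∧ ∃ t', InV (Sec D') t' ∧ NzF t' ∧
      ∀ y, s y * t' y = s' y * t y
  /-- `C` is uncountable. -/
  baire : ∀ bad : ℕ → Set P, (∀ i, IsClosed (bad i) ∧ bad i ≠ Set.univ) → ∃ x, ∀ i, x ∉ bad i

attribute [instance] Manifold.top Manifold.irr Manifold.t1 Manifold.grp Manifold.mul

variable {n : ℕ} {Lam : Type} [AddCommGroup Lam] {q : Lam → Lam → ℤ}

/-- there is a non zero section of the line bundle of class `x`. -/
abbrev Manifold.Eff (M : Manifold n Lam q) (x : Lam) : Prop := M.Sec x ≠ ⊥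

/-- AN IRREDUCIBLE COMPONENT `F` OF THE FIXED POINT SET of an automorphism `g`; `sigma` is the
symplectic form, `a = dim F`. All integrals are taken on a resolution of `F`. -/
structure FixComp (M : Manifold n Lam q) (g : M.Aut) where
  /-- the degrees on the curves contained in `F`. -/
  curves : Set (Lam →+ ℤ)
  curve_fix : ∀ δ ∈ curves, ∀ x ∈ M.NS, δ (M.pull g x) = δ x
  /-- `S w` is the integral over `F` of `sigma sigma-bar w^(a-2)` (zero if `a <= 1`), `V w` the one
  of `w^a`; they depend only on the numerical class of `w` on `F`. -/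
  S : Lam → ℝ
  V : Lam → ℝ
  S_nonneg : ∀ w ∈ M.Ample, 0 ≤ S w
  S_num : ∀ w ∈ M.NS, ∀ w' ∈ M.NS, (∀ δ ∈ curves, δ w = δ w') → S w = S w'
  V_num : ∀ w ∈ M.NS, ∀ w' ∈ M.NS, (∀ δ ∈ curves, δ w = δ w') → V w = V w'
  /-- YAU: an ample class `w` is the class of the Kaehler form `w_I` of a hyperkaehler metric;
  `lam sigma = w_J + i w_K` for a constant `lam > 0`, and the three forms have the same square, so
  `lam^2 q(Re sigma) = q(w)`; `c = q(Re sigma)`. WIRTINGER: pointwise on complex subspaces of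
  dimension `a` the form `lam^2 sigma sigma-bar w^(a-2) = (w_J^2 + w_K^2) w_I^(a-2)` is at most a
  constant times `w_I^a`. -/
  c : ℝ
  c_pos : 0 < c
  C : ℝ
  yau : ∀ w ∈ M.Ample, ∃ lam : ℝ, lam ^ 2 * c = q w w ∧ lam ^ 2 * S w ≤ C * V w

/-- DEFORMATION CLASS of hyperkaehler manifolds of dimension `2n` with `b_2 >= 5`: a connected
component of the moduli space of marked manifolds; `Mem` are its projective members. -/
structure ModClass (n : ℕ) (Lam : Type) [AddCommGroup Lam] where
  /-- the Beauville-Bogomolov form, of signature `(3, b_2 - 3)`. -/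
  q : Lam → Lam → ℤ
  q_symm : ∀ x y, q x y = q y x
  q_add : ∀ x y z, q (x + y) z = q x z + q y z
  three : ∃ a b c, 0 < q a a ∧ 0 < q b b ∧ 0 < q c c ∧ q a b = 0 ∧ q a c = 0 ∧ q b c = 0
  rest : ∀ a b c, 0 < q a a → 0 < q b b → 0 < q c c → q a b = 0 → q a c = 0 → q b c = 0 →
    ∀ v, q v a = 0 → q v b = 0 → q v c = 0 → v ≠ 0 → q v v < 0
  free : Module.Free ℤ Lam
  finite : Module.Finite ℤ Lam
  rank : 5 ≤ Module.finrank ℤ Lam
  Mem : Type
  M : Mem → Manifold n Lam q
  /-- MBM classes (AMERIK-VERBITSKY): primitive classes of negative, bounded square, with `z` also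
  `-z` is one; every prime divisor of negative square is proportional to one. -/
  MBM : Set Lam
  mbm_neg : ∀ z ∈ MBM, q z z < 0
  mbm_bdd : ∃ C : ℤ, ∀ z ∈ MBM, - C ≤ q z z
  prime_mbm : ∀ Y, ∀ D ∈ (M Y).Prime, q D D < 0 → ∃ z ∈ MBM, ∃ a b : ℕ, 0 < a ∧ 0 < b ∧
    a • D = b • z
  /-- SURJECTIVITY OF THE PERIOD MAP (HUYBRECHTS) and MARKMAN's description of its fibres: for a
  rational positive plane `<p1, p2>` and a class `kappa` orthogonal to it, of positive square and on
  no wall, there is a member with this period (the plane oriented so that `kappa` lies in the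
  positive cone of the component) for which `kappa` is ample. -/
  period : ∀ p1 p2 kappa, 0 < q p1 p1 → 0 < q p2 p2 → q p1 p2 = 0 → q kappa p1 = 0 →
    q kappa p2 = 0 → 0 < q kappa kappa →
    (∀ z ∈ MBM, q z p1 = 0 → q z p2 = 0 → q kappa z ≠ 0) →
    ∃ Y, (∀ x, x ∈ (M Y).NS ↔ q x p1 = 0 ∧ q x p2 = 0) ∧ kappa ∈ (M Y).Ample
  /-- the ample cone is a chamber of the walls orthogonal to the MBM classes. -/
  chamber : ∀ Y, ∀ kappa ∈ (M Y).Ample, ∀ y ∈ (M Y).NS, 0 < q y y → 0 < q y kappa →
    (∀ z ∈ MBM, z ∈ (M Y).NS → 0 < q kappa z → 0 < q y z) → y ∈ (M Y).Ample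
  /-- GLOBAL TORELLI (VERBITSKY, MARKMAN): the monodromy group has finite index in the orthogonal
  group, so contains the `m`-th powers; a monodromy operator which is the identity on the
  transcendental lattice and maps an ample class to an ample class comes from an automorphism. -/
  torelli : ∃ m : ℕ, 0 < m ∧ ∀ Y, ∀ phi : Lam ≃+ Lam, (∀ x y, q (phi x) (phi y) = q x y) →
    (∀ v, (∀ x ∈ (M Y).NS, q v x = 0) → phi v = v) →
    (∃ kappa ∈ (M Y).Ample, (phi^[m]) kappa ∈ (M Y).Ample) →
    ∃ g : (M Y).Aut, ∀ x, (M Y).pull g x = (phi^[m]) x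
  /-- LAGRANGIAN FIBRATIONS DEFORM (MATSUSHITA). Let `x` be an isotropic class, nef on `X` and on `Y`;
  the periods orthogonal to `x`, with `x` in the closure of the positive cone, form a connected
  domain, and the very general one has a single member. If `x` is semiample on `Y`, it defines a
  Lagrangian fibration on `Y` and on all small deformations of `Y` on which it is of type `(1,1)`, so
  `h^0(m x)` grows like `m^n` on the very general member, hence on `X` (semicontinuity), and `x` is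
  semiample on `X` by KAWAMATA's theorem (numerical dimension and Iitaka dimension are `n`). -/
  matsushita : ∀ X Y x, x ≠ 0 → q x x = 0 → x ∈ (M X).Nef → x ∈ (M Y).Nef →
    x ∈ (M Y).Semiample → x ∈ (M X).Semiample

end Pool.Agent.H79.B
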