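import Pool.Agent.H79.B.Forms

/-!
# Multivector fields, the Iitaka fibration of a sixfold, deformation classes
-/

namespace Pool.Agent.H79.B

open Filter Topology

open scoped BigOperators

/-- THE EXTERIOR PRODUCT `w_1 ∧ .. ∧ w_p` of vectors of `K^N`, as an alternating tensor. -/
def wed {K : Type} [Field K] {N p : ℕ} (w : Fin p → Fin N → K) : (Fin p → Fin N) → K :=
  fun a => Matrix.det fun i j => w i (a j)

/-- The exterior power `Λ^p W` of a subspace of `K^N`. -/
def Ext {K : Type} [Field K] {N : ℕ} (W : Submodule K (Fin N → K)) (p : ℕ) :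
    Submodule K ((Fin p → Fin N) → K) :=
  Submodule.span K {P | ∃ w : Fin p → Fin N → K, (∀ i, w i ∈ W) ∧ P = wed w}

/-- `Λ^p W` as a vector space over `ℂ`. -/
def ExtC {K : Type} [Field K] [Algebra ℂ K] {N : ℕ} (W : Submodule K (Fin N → K)) (p : ℕ) :
    Submodule ℂ ((Fin p → Fin N) → K) := (Ext W p).restrictScalars ℂ

/-- The line `K P` as a vector space over `ℂ`. -/
def LineC {K : Type} [Field K] [Algebra ℂ K] {N p : ℕ} (P : (Fin p → Fin N) → K) :
    Submodule ℂ ((Fin p → Fin N) → K) := (Submodule.span K {P}).restrictScalars ℂ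

/-- A complex vector space of alternating tensors. -/
abbrev MSub (K : Type) [Field K] [Algebra ℂ K] (N p : ℕ) : Type :=
  Submodule ℂ ((Fin p → Fin N) → K)

section Tensors

variable {K : Type} [Field K] [Algebra ℂ K] {N p r : ℕ}

/-- the dimension over `ℂ`. -/
noncomputable def dimC (V : MSub K N p) : ℕ := Module.finrank ℂ V

/-- `P` is an element of `V`. -/
abbrev InC (V : MSub K N p) (P : (Fin p → Fin N) → K) : Prop := P ∈ V

/-- the space `V` is of finite dimension, and contained in `Λ^p K^N`. -/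
def FinAlt (V : MSub K N p) : Prop := Module.Finite ℂ V ∧ V ≤ ExtC ⊤ p

/-- `P` is a non zero element of `Λ^p K^N`. -/
def Alt (P : (Fin p → Fin N) → K) : Prop := P ∈ ExtC (⊤ : Submodule K (Fin N → K)) p ∧ P ≠ 0

/-- no element of `V`, `V ⊆ Λ^p K^N`, except zero is contained in `Λ^p W` for a proper subspace
`W`. -/
def Full (V : MSub K N p) : Prop := ∀ P, InC V P → P ≠ 0 → ∀ W, InC (ExtC W p) P → W = ⊤

/-- the span of `w_1, .. , w_r`. -/
abbrev Sp (w : Fin r → Fin N → K) : Submodule K (Fin N → K) := Submodule.span K (Set.range w)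

/-- The span `W` of `w_1, .. , w_r` is the smallest subspace with the property that `Λ^p W` contains
all elements of the `V p k`, `k ≥ 0`, `p > 0`, which are in `Λ^p W`. -/
def Gen (V : (p : ℕ) → ℤ → MSub K N p) (w : Fin r → Fin N → K) : Prop :=
  ∀ W' < Sp w, ∃ p k : ℕ, 0 < p ∧
    ∃ P, InC (V p k) P ∧ InC (ExtC (Sp w) p) P ∧ ¬ InC (ExtC W' p) P

/-- `x_1 w_2 ∧ w_3 + x_2 w_3 ∧ w_1 + x_3 w_1 ∧ w_2`. -/
abbrev biv (w : Fin 3 → Fin N → K) (x : Fin 3 → K) : (Fin 2 → Fin N) → K :=
  x 0 • wed ![w 1, w 2] + x 1 • wed ![w 2, w 0] + x 2 • wed ![w 0, w 1]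

/-- the cross product. -/
abbrev crp (x x' : Fin 3 → K) : Fin 3 → K := crossProduct x x'

/-- the vector `f ∑ y_i w_i`. -/
abbrev vec (f : K) (w : Fin 3 → Fin N → K) (y : Fin 3 → K) : (Fin 1 → Fin N) → K :=
  wed ![f • ∑ i, y i • w i]

/-- For a space with the basis `w_1, w_2, w_3` the exterior product of two bivectors is a vector times
`w_1 ∧ w_2 ∧ w_3`, the cross product in coordinates. If `w_1 ∧ w_2 ∧ w_3` is replaced by the function
`f`, the exterior product of elements of `V 2 k` and `V 2 k'` is in `V 1 (k + k' - t)`. -/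
def Crs (V : (p : ℕ) → ℤ → MSub K N p) (w : Fin 3 → Fin N → K) (t : ℤ) : Prop :=
  ∃ f : K, f ≠ 0 ∧ ∀ (k k' : ℤ) (x x' : Fin 3 → K),
    InC (V 2 k) (biv w x) → InC (V 2 k') (biv w x') → InC (V 1 (k + k' - t)) (vec f w (crp x x'))

end Tensors

/-- HOLOMORPHIC MULTIVECTOR FIELDS on `Y` with values in the multiples of the class `L`, with the
function field `K` of `Y`, `N = dim Y`; after the choice of a basis of the rational vector fields the
rational sections of the tangent bundle `T` are the elements of `K^N`, the ones of `Λ^p T` the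
elements of `Λ^p K^N`. `d x` is `h^0(x)`, `h i x` is `h^i(x)`; `z` is the assertion that the metric
of `L` with minimal singularities has zero Lelong numbers. -/
structure MV (K : Type) [Field K] [Algebra ℂ K] (N : ℕ) (Lam : Type) [AddCommGroup Lam]
    (q : Lam → Lam → ℤ) (NS : AddSubgroup Lam) (Ample : Set Lam) (L : Lam) (d : Lam → ℕ)
    (h : ℕ → Lam → ℕ) (z : Prop) where
  /-- the holomorphic sections of `Λ^p T ⊗ L^k`. -/
  mv : (p : ℕ) → ℤ → MSub K N p
  mv_fin : ∀ p k, FinAlt (mv p k)
  /-- the class `D` of the saturated subsheaf of rank one of `Λ^p T` generated by `P`; the sections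
  of this sheaf with values in `L^k` are the sections of `Λ^p T ⊗ L^k` which are multiples of `P`. -/
  cl : (p : ℕ) → ((Fin p → Fin N) → K) → Lam
  cl_NS : ∀ p P, cl p P ∈ NS
  line : ∀ p P, Alt P → ∀ k : ℤ, dimC (mv p k ⊓ LineC P) = d (k • L + cl p P)
  /-- YAU (1978): `Λ^p T` is polystable of slope zero with respect to every ample class `a`; by
  FUJIKI the degree `D a^(N-1)` of a divisor is a positive multiple of `q(D, a)`. -/
  polystable : ∀ p P, Alt P → ∀ a ∈ Ample, q (cl p P) a ≤ 0
  /-- YAU, BEAUVILLE (1983): `T` is stable. The first Chern class of the saturated subsheaf of `T` with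
  the basis `w_1, .. , w_p` of rational sections is `cl p (w_1 ∧ .. ∧ w_p)`. -/
  stable : ∀ p : ℕ, 0 < p → p < N → ∀ w : Fin p → Fin N → K, Ind w →
    ∀ a ∈ Ample, q (cl p (wed w)) a < 0
  /-- BEAUVILLE (1983), BOCHNER's principle: the sections of `Λ^p T`, `p > 0`, are multiples of the
  powers of the bivector dual to the symplectic form, which do not come from a proper subspace. -/
  bochner : ∀ p : ℕ, 0 < p → Full (mv p 0)
  /-- SLOPES OF QUOTIENTS. Let `W` be a saturated subsheaf of `T` of rank `r` which is generated, at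
  the generic point, by the contractions of sections of the sheaves `Λ^p W ⊗ L^k` with
  `(p-1)`-forms. It contains a quotient of a direct sum of finitely many of the sheaves
  `Ω^(p-1) ⊗ L^(-k)`, which are polystable, so its slope with respect to an ample class `a` is at
  least the minimum of the numbers `- k q(L,a)`; and `a` tends to `L`. -/
  quotient : ∀ (r : ℕ) (w : Fin r → Fin N → K), Ind w → Gen mv w → 0 ≤ q (cl r (wed w)) L
  /-- For a reflexive sheaf `E` of rank three, `Λ^2 (Λ^2 E) = E ⊗ det E` outside codimension two; `f`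
  is the rational function which corresponds to `w_1 ∧ w_2 ∧ w_3` if `det E = O(- t L)`. -/
  cross : ∀ w : Fin 3 → Fin N → K, Ind w → ∀ t : ℤ, cl 3 (wed w) = -(t • L) → Crs mv w t
  /-- `par p k`: the sections of `Λ^p T ⊗ L^k` whose contraction with the volume form, a section of
  `Ω^(N-p) ⊗ L^k`, is PARALLEL, i.e. closed for the `(1,0)`-part of the Chern connection of the
  metric of `L` with minimal singularities. -/
  par : (p k : ℕ) → MSub K N p
  /-- WU (On the hard Lefschetz theorem for pseudo-effective line bundles, Int. J. Math. 32, 2021),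
  a more precise form of DEMAILLY, PETERNELL and SCHNEIDER (2001), Theorem 2.1.1; the multiplier
  ideals are trivial by SKODA (1972) if the Lelong numbers are zero. -/
  wu : z → ∀ p k : ℕ, p ≤ N → 0 < k → h p (k • L) = dimC (par p k)
  /-- the rational vector fields annihilated by the curvature current `T` of this metric. -/
  KT : Submodule K (Fin N → K)
  /-- if the Lelong numbers are zero, `T` has no mass on analytic subsets, and `T ≠ 0`. -/
  KT_ne : z → KT ≠ ⊤
  /-- if `u` is parallel then `T ∧ u = 0` (differentiate); if `T ∧ u = 0`, the derivative of `u` is a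
  holomorphic form and it is orthogonal to itself by Stokes' theorem, so `u` is parallel. For the
  contraction `u` of a multivector field with the volume form, `T ∧ u = 0` means that the
  contractions of the multivector field with `(p-1)`-forms are annihilated by `T`. -/
  par_iff : z → ∀ p k : ℕ, 0 < k → par p k = mv p k ⊓ ExtC KT p

variable {n : ℕ} {Lam : Type} [AddCommGroup Lam] {q : Lam → Lam → ℤ}

/-- `h^0(x)`. -/
noncomputable def hS (M : Manifold n Lam q) (x : Lam) : ℕ := dmV (M.Sec x)

/-- COHOMOLOGY, forms and multivector fields with values in the multiples of the class `L`. -/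
structure Multi (M : Manifold n Lam q) (F : Forms M) (L : Lam) extends Coh M F L where
  [alg : Algebra ℂ K]
  h_z : ∀ x ∈ M.NS, h 0 x = hS M x
  /-- KAWAMATA (1982), VIEHWEG (1982): vanishing theorem; `L` is nef of numerical dimension `n`. -/
  kv : ∀ i k : ℕ, n < i → i ≤ 2 * n → 0 < k → h i (k • L) = 0
  V : MV K (2 * n) Lam q M.NS M.Ample L (hS M) h (∀ y, F.lel L y = 0)

attribute [instance] Multi.alg

/-! Real vector spaces with a bilinear form. -/

/-- bilinear forms. -/
abbrev BilO (N : Type) [AddCommGroup N] [Module ℝ N] : Type := N →ₗ[ℝ] N →ₗ[ℝ] ℝ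

/-- the value of a bilinear form. -/
abbrev bl {N : Type} [AddCommGroup N] [Module ℝ N] (b : BilO N) (x y : N) : ℝ := b x y

/-- the vector is not zero. -/
abbrev NzO {N : Type} [AddCommGroup N] (x : N) : Prop := x ≠ 0

/-- THE IITAKA FIBRATION of a nef isotropic class `x` on a sixfold with zero Lelong numbers and
`κ(x) = 2`. `F` is a very general fibre of a resolution of it, so `dim F = 4`; `W → F` is a
resolution on which the log minimal model `V` of `F` below is defined; `N` is the space of the real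
divisor classes on `W` up to numerical equivalence. -/
structure Fib where
  N : Type
  [grp : AddCommGroup N]
  [mod : Module ℝ N]
  /-- `x . y . H^2`, for an ample class `H`. -/
  b : BilO N
  b_symm : ∀ x y, bl b x y = bl b y x
  H : N
  /-- HODGE index theorem. -/
  hodge : ∀ x, bl b H x = 0 → NzO x → bl b x x < 0
  Nef : Set N
  Eff : Set N
  nef_nef : ∀ x ∈ Nef, ∀ y ∈ Nef, 0 ≤ bl b x y
  nef_eff : ∀ x ∈ Nef, ∀ y ∈ Eff, 0 ≤ bl b x y
  H_nef : H ∈ Nef
  /-- the pull back of `x`; it is of numerical dimension one on `F`, because `x` is of numerical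
  dimension three. -/
  l : N
  l_nef : l ∈ Nef
  l_ne : NzO l
  l_sq : bl b l l = 0
  /-- for a small `ε > 0` and a divisor `D` of a multiple of `x` one has
  `K_F + Δ = c x|F + E`, where `Δ` is the strict transform of `ε D`; `E` is exceptional and lies over
  the base locus, so it is at most a multiple of the fixed divisor of a multiple of `x|F`. -/
  c : ℝ
  c_pos : 0 < c
  E : N
  C : ℝ
  C_pos : 0 ≤ C
  C_eff : subO (smulO C l) E ∈ Eff
  E_eff : E ∈ Eff
  /-- BIRKAR (On existence of log minimal models, Compositio 146, 2010): `(F, Δ)` is effective of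
  dimension four, so it has a log minimal model `V`; `P` is the pull back of `K_V + Δ_V`, and
  `K_F + Δ = P + G`, `G ≥ 0`, by the negativity lemma; also `P ≥ c l`. -/
  P : N
  P_nef : P ∈ Nef
  G : N
  G_eff : G ∈ Eff
  eq : addO (smulO c l) E = addO P G
  neg : subO P (smulO c l) ∈ Eff
  /-- `h0 k` is the dimension of `H^0(W, k r P)`, `r P` integral; `κ(F, K_F + Δ) = 0` by IITAKA. -/
  h0 : ℕ → ℕ
  iitaka : ∀ k, h0 k ≤ 1
  /-- `x|F` has zero Lelong numbers (SKODA, FUBINI). GONGYO and MATSUMURA (Ann. Sci. Ecole Norm. Sup.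
  50, 2017), with FUJINO's abundance theorem for semi log canonical threefolds (2000): if `P` is a
  multiple of `l`, it has a metric with zero Lelong numbers, and `K_V + Δ_V` is semiample. -/
  gm : ∀ t : ℝ, 0 < t → P = smulO t l → ∃ k, 2 ≤ h0 k

attribute [instance] Fib.grp Fib.mod

/-- THE PERIOD of a marked manifold: the real vectors `Re σ = ∑ c_j e_j` and `Im σ = ∑ d_j e_j`,
`e_j` in the lattice; they are a basis of a positive plane. -/
structure Per {Lam : Type} (q : Lam → Lam → ℤ) where
  k : ℕ
  e : Fin k → Lam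
  c : Fin k → ℝ
  d : Fin k → ℝ
  c_pos : 0 < ∑ i, ∑ j, c i * c j * (q (e i) (e j) : ℝ)
  d_pos : 0 < ∑ i, ∑ j, d i * d j * (q (e i) (e j) : ℝ)
  orth : ∑ i, ∑ j, c i * d j * (q (e i) (e j) : ℝ) = 0

/-- `q(x, Re σ)`. -/
def Per.re {Lam : Type} {q : Lam → Lam → ℤ} (π : Per q) (x : Lam) : ℝ :=
  ∑ j, π.c j * (q x (π.e j) : ℝ)

/-- `q(x, Im σ)`. -/
def Per.im {Lam : Type} {q : Lam → Lam → ℤ} (π : Per q) (x : Lam) : ℝ :=
  ∑ j, π.d j * (q x (π.e j) : ℝ)

/-- a multiple of a function. -/
abbrev scF {P : Type} (c : ℂ) (s : P → ℂ) : P → ℂ := c • s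

/-- THE DIVISOR of a section of a class which is not a sum of two classes of effective divisors is
prime. -/
def PrimeDiv (M : Manifold n Lam q) : Prop :=
  ∀ x ∈ M.NS, x ≠ 0 → (∀ u ∈ AddSubmonoid.closure M.Prime,
      ∀ v ∈ AddSubmonoid.closure M.Prime, u + v = x → u = 0 ∨ v = 0) →
    ∀ s, InV (M.Sec x) s → NzF s → IsIrreducible {y | s y = 0} ∧
      ∀ t, InV (M.Sec x) t → (∀ y, s y = 0 → t y = 0) → ∃ c : ℂ, t = scF c s

/-- three algebraically independent functions. -/
def AlgInd {P : Type} (s : Fin 3 → P → ℂ) : Prop :=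
  ∀ (d : ℕ) (G : MvPolynomial (Fin 3) ℂ), G.IsHomogeneous d → G ≠ 0 → MvPolynomial.aeval s G ≠ 0

/-- The class `x` has three algebraically independent sections. -/
def ThreeSec (M : Manifold n Lam q) (x : Lam) : Prop :=
  ∃ s : Fin 3 → M.P → ℂ, (∀ i, InV (M.Sec x) (s i)) ∧ AlgInd s

/-- DEFORMATION CLASS of hyperkaehler manifolds of dimension `2n` with `b_2 >= 5`, with the local
families of its projective members. -/
structure SClassA (n : ℕ) (Lam : Type) [AddCommGroup Lam] extends ModClass n Lam where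
  /-- no wall meets the ample cone. -/
  wall : ∀ Y, ∀ z ∈ MBM, z ∈ (M Y).NS → ∀ kappa ∈ (M Y).Ample, ∀ y ∈ (M Y).Ample,
    0 < q kappa z → 0 < q y z
  /-- the period; LEFSCHETZ's theorem on `(1,1)`-classes. -/
  per : Mem → Per q
  NS_per : ∀ Y x, x ∈ (M Y).NS ↔ (per Y).re x = 0 ∧ (per Y).im x = 0
  /-- THE LOCAL FAMILY `X_t` of a member `X` (KURANISHI; BEAUVILLE's local Torelli theorem). Let `a`
  be ample on `X` and `L` in `NS X`. Oriented rational positive planes `<s_k p1_k, t_k p2_k>`
  orthogonal to `a` and `L` which tend to `<Re σ, Im σ>` are, for large `k`, the periods of members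
  `Y_k` of the family, which tend to `X`; `NS Y_k` consists of the classes orthogonal to the plane,
  `a` stays ample, and `h^0(mL)` is upper semicontinuous. -/
  near : ∀ X, ∀ a ∈ (M X).Ample, ∀ L ∈ (M X).NS, ∀ (p1 p2 : ℕ → Lam) (s t : ℕ → ℝ),
    (∀ k, 0 < q (p1 k) (p1 k)) → (∀ k, 0 < q (p2 k) (p2 k)) → (∀ k, q (p1 k) (p2 k) = 0) →
    (∀ k, q a (p1 k) = 0 ∧ q a (p2 k) = 0 ∧ q L (p1 k) = 0 ∧ q L (p2 k) = 0) →
    (∀ x, Tendsto (fun k => s k * (q x (p1 k) : ℝ)) atTop (𝓝 ((per X).re x))) →
    (∀ x, Tendsto (fun k => t k * (q x (p2 k) : ℝ)) atTop (𝓝 ((per X).im x))) →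
    ∃ (Y : ℕ → Mem) (k0 : ℕ),
      (∀ k, k0 ≤ k → (∀ x, x ∈ (M (Y k)).NS ↔ q x (p1 k) = 0 ∧ q x (p2 k) = 0) ∧
        a ∈ (M (Y k)).Ample) ∧
      ∀ m c : ℕ, (∀ k1, ∃ k, k1 ≤ k ∧ c ≤ dmV ((M (Y k)).Sec (m • L))) →
        c ≤ dmV ((M X).Sec (m • L))

/-- DEFORMATION CLASS of hyperkaehler manifolds of dimension `2n` with `b_2 >= 5`, with the local
families and the analytic data of its projective members. -/
structure SClass (n : ℕ) (Lam : Type) [AddCommGroup Lam] extends SClassA n Lam where
  /-- smooth functions, closed forms and Lelong numbers. -/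
  forms : ∀ Y, Forms (M Y)
  /-- cohomology, holomorphic forms and multivector fields with values in the multiples of an
  isotropic nef class. -/
  coh : ∀ Y, ∀ x ∈ (M Y).Nef, q x x = 0 → x ≠ 0 → Multi (M Y) (forms Y) x
  prime_div : ∀ Y, PrimeDiv (M Y)
  /-- GONGYO-MATSUMURA (extension theorem for metrics with zero Lelong numbers), FUJINO (abundance
  for semi log canonical threefolds), FUKUDA: on a fourfold with trivial canonical class a nef class
  with zero Lelong numbers, a positive multiple of which is effective, is semiample. -/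
  gongyo_matsumura : n = 2 → ∀ Y, ∀ x ∈ (M Y).Nef, (∀ y, (forms Y).lel x y = 0) →
    ∀ m : ℕ, 0 < m → (M Y).Eff (m • x) → x ∈ (M Y).Semiample
  /-- SIXFOLDS. Let `x` be a nef isotropic class with zero Lelong numbers, a multiple of which has
  three algebraically independent sections, so that `κ(x)` is `2` or `3 = ν(x)`. In the second case
  `x` is semiample by KAWAMATA (Invent. Math. 79, 1985). -/
  six : n = 3 → ∀ Y, ∀ x ∈ (M Y).Nef, q x x = 0 → (∀ y, (forms Y).lel x y = 0) →
    ThreeSec (M Y) x → x ∈ (M Y).Semiample ∨ Nonempty Fib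

end Pool.Agent.H79.B
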